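import Mathlib

set_option autoImplicit false
set_option linter.unusedSectionVars false

/-!
# Eigenvectors with characters
-/

namespace Pool.Agent.L0h12.EC

open Module

section XG

variable {G : Type*} [Group G]

/-- the group of characters, written additively -/
def XG (G : Type*) [Group G] : Type _ := Additive (G →* ℂˣ)

noncomputable instance XG.ac : AddCommGroup (XG G) :=
  inferInstanceAs (AddCommGroup (Additive (G →* ℂˣ)))

/-- the character in additive notation -/
def toX (l : G →* ℂˣ) : XG G := Additive.ofMul l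

/-- the character in multiplicative notation -/
def ofX (x : XG G) : G →* ℂˣ := Additive.toMul x

theorem toX_mul (l m : G →* ℂˣ) : toX (l * m) = toX l + toX m := rfl

theorem toX_div (l m : G →* ℂˣ) : toX (l / m) = toX l - toX m := rfl

theorem toX_inv (l : G →* ℂˣ) : toX l⁻¹ = -toX l := rfl

theorem toX_one : toX (1 : G →* ℂˣ) = 0 := rfl

theorem toX_zpow (l : G →* ℂˣ) (n : ℤ) : toX (l ^ n) = n • toX l := rfl

theorem toX_pow (l : G →* ℂˣ) (n : ℕ) : toX (l ^ n) = (n : ℤ) • toX l := by
  rw [natCast_zsmul]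
  rfl

theorem toX_inj {l m : G →* ℂˣ} (h : toX l = toX m) : l = m := Additive.ofMul.injective h

theorem ofX_inj {l m : XG G} (h : ofX l = ofX m) : l = m := Additive.toMul.injective h

end XG

section

variable {Γ V : Type*} [Group Γ] [AddCommGroup V] [Module ℂ V] (ap : Γ → V →ₗ[ℂ] V)

/-- the eigenspace of a character -/
def Wt (l : Γ →* ℂˣ) : Submodule ℂ V where
  carrier := {x | ∀ g, ap g x = (l g : ℂ) • x}
  zero_mem' := fun g => by rw [map_zero, smul_zero]
  add_mem' := fun hx hy g => by rw [map_add, hx g, hy g, smul_add]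
  smul_mem' := fun c x hx g => by rw [map_smul, hx g, smul_comm]

variable {ap}

theorem mem_Wt {l : Γ →* ℂˣ} {x : V} : x ∈ Wt ap l ↔ ∀ g, ap g x = (l g : ℂ) • x := Iff.rfl

theorem Wt_unique {l m : Γ →* ℂˣ} {x : V} (hx : x ≠ 0) (h1 : x ∈ Wt ap l) (h2 : x ∈ Wt ap m) :
    l = m := by
  refine MonoidHom.ext fun g => Units.ext ?_
  have h3 : ((l g : ℂ) - (m g : ℂ)) • x = 0 := by
    rw [sub_smul, ← h1 g, ← h2 g, sub_self]
  rcases smul_eq_zero.1 h3 with h | h
  · exact sub_eq_zero.1 h
  · exact absurd h hx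

/-- an eigenvector in the span of eigenvectors -/
theorem Wt_span {l : Γ →* ℂˣ} {x : V} (hx : x ≠ 0) (h1 : x ∈ Wt ap l) {S : Set V}
    (hS : ∀ y ∈ S, ∃ m, y ∈ Wt ap m) (h2 : x ∈ Submodule.span ℂ S) :
    ∃ y ∈ S, y ≠ 0 ∧ y ∈ Wt ap l := by
  obtain ⟨B, hBS, hsp, hli⟩ := exists_linearIndependent ℂ S
  rw [← hsp] at h2
  obtain ⟨a, ha⟩ := (Finsupp.mem_span_iff_linearCombination ℂ B x).1 h2
  choose m hm using fun y : B => hS y (hBS y.2)
  obtain ⟨y, hy⟩ : ∃ y, a y ≠ 0 := by
    by_contra hcon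
    push Not at hcon
    apply hx
    rw [← ha, Finsupp.linearCombination_apply, Finsupp.sum]
    exact Finset.sum_eq_zero fun y _ => by rw [hcon y, zero_smul]
  refine ⟨y, hBS y.2, hli.ne_zero y, ?_⟩
  have h3 : l = m y := by
    refine MonoidHom.ext fun g => Units.ext ?_
    have h4 : Finsupp.linearCombination ℂ ((↑) : B → V)
        (a.mapRange (fun z => (l g : ℂ) * z) (mul_zero _) -
          Finsupp.onFinset a.support (fun y => (m y g : ℂ) * a y) (fun y h =>
            Finsupp.mem_support_iff.2 fun h0 => h (by rw [h0, mul_zero]))) = 0 := by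
      rw [map_sub, sub_eq_zero]
      have e1 : Finsupp.linearCombination ℂ ((↑) : B → V)
          (a.mapRange (fun z => (l g : ℂ) * z) (mul_zero _)) = (l g : ℂ) • x := by
        rw [← ha, ← map_smul]
        congr 1
      have e2 : Finsupp.linearCombination ℂ ((↑) : B → V)
          (Finsupp.onFinset a.support (fun y => (m y g : ℂ) * a y) (fun y h =>
            Finsupp.mem_support_iff.2 fun h0 => h (by rw [h0, mul_zero]))) = ap g x := by
        rw [← ha, Finsupp.linearCombination_apply, Finsupp.linearCombination_apply,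
          Finsupp.sum_of_support_subset (s := a.support), Finsupp.sum, map_sum]
        · refine Finset.sum_congr rfl fun z _ => ?_
          rw [map_smul, hm z g, Finsupp.onFinset_apply, smul_smul, mul_comm]
        · exact Finsupp.support_onFinset_subset
        · exact fun i _ => zero_smul ℂ _
      rw [e1, e2, h1 g]
    have h5 := linearIndependent_iff.1 hli _ h4
    have h6 := DFunLike.congr_fun h5 y
    rw [Finsupp.sub_apply, Finsupp.mapRange_apply, Finsupp.onFinset_apply, Finsupp.zero_apply,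
      ← sub_mul] at h6
    exact sub_eq_zero.1 ((mul_eq_zero.1 h6).resolve_right hy)
  rw [h3]
  exact hm y

variable (ap) in
theorem Wt_indep : iSupIndep (Wt ap) := by
  intro l
  rw [Submodule.disjoint_def]
  intro x hx h1
  by_contra h0
  have h2 : (⨆ m, ⨆ (_ : m ≠ l), Wt ap m) ≤ Submodule.span ℂ {y | ∃ m, m ≠ l ∧ y ∈ Wt ap m} := by
    refine iSup₂_le fun m hm y hy => ?_
    exact Submodule.subset_span ⟨m, hm, hy⟩
  obtain ⟨y, ⟨m, hm, hy⟩, hy0, hyl⟩ := Wt_span h0 hx (fun y hy => ⟨_, hy.choose_spec.2⟩) (h2 h1)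
  exact hm (Wt_unique hy0 hy hyl)

variable (ap) in
/-- the characters of eigenvectors -/
def Chars : Set (Γ →* ℂˣ) := {l | ∃ x, x ≠ 0 ∧ x ∈ Wt ap l}

theorem finite_chars [FiniteDimensional ℂ V] : (Chars ap).Finite := by
  let S := {l : Γ →* ℂˣ // l ∈ Chars ap}
  choose v hv0 hv using fun l : S => l.2
  have h2 : LinearIndependent ℂ v := by
    refine iSupIndep.linearIndependent (fun l : S => Wt ap l.1) ?_ hv hv0
    exact (Wt_indep ap).comp Subtype.val_injective
  have h3 : Finite S := h2.finite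
  exact Set.toFinite _

variable (ap) in
/-- the span of the eigenvectors -/
def eigS : Submodule ℂ V := Submodule.span ℂ {x | ∃ l, x ∈ Wt ap l}

/-- the count -/
theorem count_chars [FiniteDimensional ℂ V] {S : Set V} {A : Set (Γ →* ℂˣ)}
    (hS : ∀ y ∈ S, ∃ l ∈ A, y ∈ Wt ap l) (T : Finset (Γ →* ℂˣ)) (hT : ∀ l ∈ T, l ∈ Chars ap)
    (hTA : ∀ l ∈ T, l ∉ A) :
    finrank ℂ (Submodule.span ℂ S) + T.card ≤ finrank ℂ (eigS ap) := by
  choose v hv0 hv using fun l : T => hT l.1 l.2
  have h2 : LinearIndependent ℂ v := by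
    refine iSupIndep.linearIndependent (fun l : T => Wt ap l.1) ?_ hv hv0
    exact (Wt_indep ap).comp Subtype.val_injective
  have h3 : finrank ℂ (Submodule.span ℂ (Set.range v)) = T.card := by
    rw [finrank_span_eq_card h2, Fintype.card_coe]
  have hd : Disjoint (Submodule.span ℂ S) (Submodule.span ℂ (Set.range v)) := by
    have h4 : Submodule.span ℂ S ≤ ⨆ l ∈ A, Wt ap l := by
      refine Submodule.span_le.2 fun y hy => ?_
      obtain ⟨l, hl, h⟩ := hS y hy
      exact Submodule.mem_iSup_of_mem l (Submodule.mem_iSup_of_mem hl h)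
    have h5 : Submodule.span ℂ (Set.range v) ≤ ⨆ l ∈ (T : Set (Γ →* ℂˣ)), Wt ap l := by
      refine Submodule.span_le.2 ?_
      rintro _ ⟨l, rfl⟩
      exact Submodule.mem_iSup_of_mem l.1 (Submodule.mem_iSup_of_mem l.2 (hv l))
    refine Disjoint.mono h4 h5 ((Wt_indep ap).disjoint_biSup_biSup ?_)
    rw [Set.disjoint_left]
    exact fun l h1 h2 => hTA l h2 h1
  rw [← h3]
  have h6 := Submodule.finrank_sup_add_finrank_inf_eq (Submodule.span ℂ S)
    (Submodule.span ℂ (Set.range v))
  rw [hd.eq_bot, finrank_bot, add_zero] at h6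
  rw [← h6]
  refine Submodule.finrank_mono (sup_le ?_ ?_)
  · refine Submodule.span_mono fun y hy => ?_
    obtain ⟨l, -, h⟩ := hS y hy
    exact ⟨l, h⟩
  · refine Submodule.span_mono ?_
    rintro _ ⟨l, rfl⟩
    exact ⟨l.1, hv l⟩

/-- spanned by eigenvectors: stable complements -/
theorem compl_of_eig [FiniteDimensional ℂ V] (htop : eigS ap = ⊤) (A : Submodule ℂ V) :
    ∃ B : Submodule ℂ V, (∀ g, ∀ x ∈ B, ap g x ∈ B) ∧ IsCompl A B := by
  obtain ⟨κ', a, -, hsp, hli⟩ := exists_linearIndependent' ℂ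
    (fun k : {x : V // ∃ l, x ∈ Wt ap l} => A.mkQ k.1)
  have htop' : Submodule.span ℂ (Set.range fun k : {x : V // ∃ l, x ∈ Wt ap l} => A.mkQ k.1) =
      ⊤ := by
    have h1 : (Set.range fun k : {x : V // ∃ l, x ∈ Wt ap l} => A.mkQ k.1) =
        A.mkQ '' {x : V | ∃ l, x ∈ Wt ap l} := by
      ext y
      constructor
      · rintro ⟨k, rfl⟩
        exact ⟨k.1, k.2, rfl⟩
      · rintro ⟨x, hx, rfl⟩
        exact ⟨⟨x, hx⟩, rfl⟩
    have h2 : Submodule.span ℂ {x : V | ∃ l, x ∈ Wt ap l} = ⊤ := htop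
    rw [h1, Submodule.span_image, h2, Submodule.map_top, Submodule.range_mkQ]
  rw [htop'] at hsp
  refine ⟨Submodule.span ℂ (Set.range fun k => (a k).1), ?_, ⟨?_, ?_⟩⟩
  · intro g x hx
    induction hx using Submodule.span_induction with
    | mem x hx =>
      obtain ⟨i, rfl⟩ := hx
      obtain ⟨l, hl⟩ := (a i).2
      rw [hl g]
      exact Submodule.smul_mem _ _ (Submodule.subset_span ⟨i, rfl⟩)
    | zero => rw [map_zero]; exact Submodule.zero_mem _
    | add x y _ _ hx hy => rw [map_add]; exact Submodule.add_mem _ hx hy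
    | smul c x _ hx => rw [map_smul]; exact Submodule.smul_mem _ _ hx
  · rw [Submodule.disjoint_def]
    intro x hxN hxC
    obtain ⟨c, rfl⟩ := (Finsupp.mem_span_range_iff_exists_finsupp).1 hxC
    have h1 : A.mkQ (c.sum fun i a_1 => a_1 • (a i).1) = 0 := by
      rw [Submodule.mkQ_apply, Submodule.Quotient.mk_eq_zero]
      exact hxN
    rw [map_finsuppSum] at h1
    have h2 : Finsupp.linearCombination ℂ
        ((fun k : {x : V // ∃ l, x ∈ Wt ap l} => A.mkQ k.1) ∘ a) c = 0 := by
      rw [Finsupp.linearCombination_apply, ← h1]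
      refine Finsupp.sum_congr fun i _ => ?_
      rw [map_smul]
      rfl
    have h3 := linearIndependent_iff.1 hli c h2
    rw [h3, Finsupp.sum_zero_index]
  · rw [codisjoint_iff, eq_top_iff]
    intro x _
    have h1 : A.mkQ x ∈ (Submodule.span ℂ (Set.range fun k => (a k).1)).map A.mkQ := by
      rw [Submodule.map_span, ← Set.range_comp]
      have h2 : (A.mkQ ∘ fun k => (a k).1) =
        (fun k : {x : V // ∃ l, x ∈ Wt ap l} => A.mkQ k.1) ∘ a := rfl
      rw [h2, hsp]
      trivial
    obtain ⟨y, hy, hxy⟩ := h1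
    rw [Submodule.mkQ_apply, Submodule.mkQ_apply] at hxy
    have h3 : x - y ∈ A := (Submodule.Quotient.eq A).1 hxy.symm
    have h4 : x = (x - y) + y := by abel
    rw [h4]
    exact Submodule.add_mem_sup h3 hy

end

end Pool.Agent.L0h12.EC
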