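import Mathlib

set_option autoImplicit false
set_option linter.unusedSectionVars false

/-!
# Relations between characters, and hitting sets
-/

namespace Pool.Agent.L0h12.EC

section invol

/-- Representatives for an involution without fixed points. -/
theorem exists_half {C : Type*} [DecidableEq C] (σ : C → C) (n : ℕ) : ∀ T : Finset C, T.card = n →
    (∀ x ∈ T, σ x ∈ T) → (∀ x ∈ T, σ (σ x) = x) → (∀ x ∈ T, σ x ≠ x) →
    ∃ R ⊆ T, 2 * R.card = T.card ∧ ∀ x ∈ T, x ∈ R ∨ σ x ∈ R := by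
  induction n using Nat.strong_induction_on with
  | _ n ih =>
    intro T hT h1 h2 h3
    rcases T.eq_empty_or_nonempty with rfl | ⟨x, hx⟩
    · exact ⟨∅, Finset.Subset.refl _, rfl, fun x hx => absurd hx (Finset.notMem_empty x)⟩
    · let T' := (T.erase x).erase (σ x)
      have hxs : σ x ∈ T.erase x := Finset.mem_erase.2 ⟨h3 x hx, h1 x hx⟩
      have hc : T'.card + 2 = T.card := by
        have e1 := Finset.card_erase_add_one hx
        have e2 := Finset.card_erase_add_one hxs
        show ((T.erase x).erase (σ x)).card + 2 = T.card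
        omega
      have hmem : ∀ y, y ∈ T' ↔ y ≠ σ x ∧ y ≠ x ∧ y ∈ T := fun y => by
        simp only [T', Finset.mem_erase]
      obtain ⟨R, hR, hRc, hRT⟩ := ih T'.card (by omega) T' rfl (fun y hy => by
          rw [hmem] at hy ⊢
          refine ⟨fun h => hy.2.1 ?_, fun h => hy.1 ?_, h1 y hy.2.2⟩
          · rw [← h2 y hy.2.2, h, h2 x hx]
          · rw [← h, h2 y hy.2.2]) (fun y hy => h2 y ((hmem y).1 hy).2.2)
        (fun y hy => h3 y ((hmem y).1 hy).2.2)
      have hxR : x ∉ R := fun h => ((hmem x).1 (hR h)).2.1 rfl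
      refine ⟨insert x R, ?_, ?_, ?_⟩
      · refine Finset.insert_subset hx fun y hy => ((hmem y).1 (hR hy)).2.2
      · rw [Finset.card_insert_of_notMem hxR]
        omega
      · intro y hy
        by_cases hyx : y = x
        · exact Or.inl (Finset.mem_insert.2 (Or.inl hyx))
        · by_cases hys : y = σ x
          · right
            rw [hys, h2 x hx]
            exact Finset.mem_insert_self x R
          · rcases hRT y ((hmem y).2 ⟨hys, hyx, hy⟩) with h | h
            · exact Or.inl (Finset.mem_insert_of_mem h)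
            · exact Or.inr (Finset.mem_insert_of_mem h)

end invol

/-- A group with a Tate element `χ`, elements `θ i` which are multiplied by signs by the operators
`a τ`, where `c` is the complex conjugation. -/
structure Dat (ι Γ C : Type*) [AddCommGroup C] where
  /-- the operators -/
  a : Γ → C →+ C
  /-- the complex conjugation -/
  c : Γ
  χ : C
  θ : ι → C
  /-- the signs -/
  ε : ι → Γ → ℤ
  act_χ : ∀ τ, a τ χ = χ
  act_θ : ∀ τ i, a τ (θ i) = ε i τ • θ i
  invol : ∀ x, a c (a c x) = x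
  sign : ∀ i τ, ε i τ = 1 ∨ ε i τ = -1
  neg : ∀ i, θ i ≠ 0 → ε i c = -1
  free : ∀ i, θ i ≠ 0 → ∀ n : ℤ, n • θ i = 0 → n = 0
  sep : ∀ i j, i ≠ j → θ i ≠ 0 → θ j ≠ 0 → ∃ τ, ε i τ ≠ ε j τ

namespace Dat

variable {ι Γ C : Type*} [AddCommGroup C] (D : Dat ι Γ C)

/-- the combination of the `θ i` -/
def comb (f : ι →₀ ℤ) : C := f.sum fun i n => n • D.θ i

theorem comb_zero : D.comb 0 = 0 := Finsupp.sum_zero_index

theorem comb_add (f g : ι →₀ ℤ) : D.comb (f + g) = D.comb f + D.comb g := by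
  classical
  exact Finsupp.sum_add_index' (fun i => zero_smul ℤ _) fun i a b => add_smul a b _

theorem comb_smul (n : ℤ) (f : ι →₀ ℤ) : D.comb (n • f) = n • D.comb f := by
  unfold comb
  have h1 := Finsupp.sum_smul_index' (g := f) (b := n) (h := fun i (m : ℤ) => m • D.θ i)
    fun i => zero_smul ℤ _
  rw [h1, Finsupp.smul_sum]
  refine Finsupp.sum_congr fun i _ => ?_
  rw [smul_smul]
  rfl

theorem comb_neg (f : ι →₀ ℤ) : D.comb (-f) = -D.comb f := by
  rw [← neg_one_smul ℤ f, comb_smul, neg_one_smul]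

theorem comb_sub (f g : ι →₀ ℤ) : D.comb (f - g) = D.comb f - D.comb g := by
  rw [sub_eq_add_neg, comb_add, comb_neg, sub_eq_add_neg]

/-- the exponents are supported on the nonzero `θ i` -/
def Ok (f : ι →₀ ℤ) : Prop := ∀ i, f i ≠ 0 → D.θ i ≠ 0

variable {D}

theorem Ok.add {f g : ι →₀ ℤ} (hf : D.Ok f) (hg : D.Ok g) : D.Ok (f + g) := fun i hi => by
  by_cases h : f i = 0
  · refine hg i fun h2 => hi ?_
    rw [Finsupp.add_apply, h, h2, add_zero]
  · exact hf i h

theorem Ok.smul {f : ι →₀ ℤ} (hf : D.Ok f) (n : ℤ) : D.Ok (n • f) := fun i hi => hf i fun h =>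
  hi (by rw [Finsupp.smul_apply, h, smul_zero])

theorem Ok.neg {f : ι →₀ ℤ} (hf : D.Ok f) : D.Ok (-f) := fun i hi => hf i fun h =>
  hi (by rw [Finsupp.neg_apply, h, neg_zero])

theorem Ok.sub {f g : ι →₀ ℤ} (hf : D.Ok f) (hg : D.Ok g) : D.Ok (f - g) := by
  rw [sub_eq_add_neg]
  exact hf.add hg.neg

variable (D)

/-- the action on the exponents -/
noncomputable def tw (τ : Γ) (f : ι →₀ ℤ) : ι →₀ ℤ :=
  Finsupp.onFinset f.support (fun i => f i * D.ε i τ) fun i hi =>
    Finsupp.mem_support_iff.2 fun h => hi (by rw [h, zero_mul])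

theorem tw_apply (τ : Γ) (f : ι →₀ ℤ) (i : ι) : D.tw τ f i = f i * D.ε i τ := rfl

theorem act_comb (τ : Γ) (f : ι →₀ ℤ) : D.a τ (D.comb f) = D.comb (D.tw τ f) := by
  classical
  have h1 : D.comb (D.tw τ f) = ∑ i ∈ f.support, (f i * D.ε i τ) • D.θ i := by
    unfold comb
    rw [Finsupp.sum_of_support_subset (s := f.support)]
    · rfl
    · exact Finsupp.support_onFinset_subset
    · exact fun i _ => zero_smul ℤ _
  rw [h1]
  unfold comb
  rw [Finsupp.sum, map_sum]
  refine Finset.sum_congr rfl fun i _ => ?_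
  rw [map_zsmul, D.act_θ, smul_smul]

theorem sq_sign (i : ι) (τ : Γ) : D.ε i τ * D.ε i τ = 1 := by
  rcases D.sign i τ with h | h <;> rw [h] <;> rfl

theorem indep0 (n : ℕ) : ∀ f : ι →₀ ℤ, f.support.card = n → D.Ok f → D.comb f = 0 → f = 0 := by
  classical
  induction n using Nat.strong_induction_on with
  | _ n ih =>
    intro f hn hf h0
    by_contra hne
    obtain ⟨b, hb⟩ := Finsupp.support_nonempty_iff.2 hne
    have hb' := Finsupp.mem_support_iff.1 hb
    by_cases hall : ∀ a ∈ f.support, a = b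
    · have h1 : D.comb f = f b • D.θ b := by
        unfold comb
        rw [Finsupp.sum, Finset.sum_eq_single b]
        · intro a ha hab
          exact absurd (hall a ha) hab
        · intro h
          exact absurd hb h
      rw [h1] at h0
      exact hb' (D.free b (hf b hb') _ h0)
    · push Not at hall
      obtain ⟨a, ha, hab⟩ := hall
      have ha' := Finsupp.mem_support_iff.1 ha
      obtain ⟨τ, hτ⟩ := D.sep a b hab (hf a ha') (hf b hb')
      -- eliminate `a`
      let g : ι →₀ ℤ := f - D.ε a τ • D.tw τ f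
      have hg : ∀ i, g i = f i * (1 - D.ε a τ * D.ε i τ) := by
        intro i
        simp only [g]
        rw [Finsupp.sub_apply, Finsupp.smul_apply, tw_apply, smul_eq_mul]
        ring
      have hga : g a = 0 := by
        rw [hg, D.sq_sign, sub_self, mul_zero]
      have hsub : g.support ⊆ f.support.erase a := by
        intro i hi
        rw [Finset.mem_erase, Finsupp.mem_support_iff]
        rw [Finsupp.mem_support_iff] at hi
        refine ⟨fun h => hi (by rw [h, hga]), fun h => hi (by rw [hg, h, zero_mul])⟩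
      have hcard : g.support.card < n := by
        have h1 := Finset.card_le_card hsub
        have h2 := Finset.card_erase_add_one ha
        omega
      have hgok : D.Ok g := fun i hi => hf i fun h => hi (by rw [hg, h, zero_mul])
      have hg0 : D.comb g = 0 := by
        simp only [g]
        rw [comb_sub, comb_smul, ← act_comb, h0, map_zero, smul_zero, sub_zero]
      have h1 := ih _ hcard g rfl hgok hg0
      have h2 : g b = 0 := by rw [h1, Finsupp.zero_apply]
      rw [hg] at h2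
      rcases mul_eq_zero.1 h2 with h3 | h3
      · exact hb' h3
      · apply hτ
        rcases D.sign a τ with e1 | e1 <;> rcases D.sign b τ with e2 | e2 <;> rw [e1, e2] at h3 ⊢ <;>
          norm_num at h3

theorem tw_c {f : ι →₀ ℤ} (hf : D.Ok f) : D.tw D.c f = -f := by
  ext i
  rw [tw_apply, Finsupp.neg_apply]
  by_cases h : f i = 0
  · rw [h, zero_mul, neg_zero]
  · rw [D.neg i (hf i h), mul_neg_one]

/-- **Independence.** -/
theorem indep {f : ι →₀ ℤ} (hf : D.Ok f) {M : ℤ} (h : M • D.χ + D.comb f = 0) : f = 0 := by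
  have h1 := congrArg (D.a D.c) h
  rw [map_zero, map_add, map_zsmul, D.act_χ, act_comb, D.tw_c hf, comb_neg] at h1
  have h2 : D.comb ((2 : ℤ) • f) = 0 := by
    rw [comb_smul, two_smul]
    have h3 : D.comb f + D.comb f = (M • D.χ + D.comb f) - (M • D.χ + -D.comb f) := by abel
    rw [h3, h, h1, sub_zero]
  have h3 := D.indep0 _ _ rfl (hf.smul 2) h2
  ext i
  have h4 : ((2 : ℤ) • f) i = 0 := by rw [h3, Finsupp.zero_apply]
  rw [Finsupp.smul_apply, smul_eq_mul] at h4
  rw [Finsupp.zero_apply]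
  omega

/-- the multiple of `x` is a combination of `χ` and the `θ i` -/
def Rep (x : C) (f : ι →₀ ℤ) : Prop :=
  D.Ok f ∧ ∃ N M : ℤ, N ≠ 0 ∧ N • x = M • D.χ + D.comb f

theorem Rep.supp {x : C} {f g : ι →₀ ℤ} (hf : D.Rep x f) (hg : D.Rep x g) (i : ι) :
    f i ≠ 0 → g i ≠ 0 := by
  obtain ⟨hf, N, M, hN, h1⟩ := hf
  obtain ⟨hg, N', M', hN', h2⟩ := hg
  have h3 : (N' * M - N * M') • D.χ + D.comb (N' • f - N • g) = 0 := by
    have e1 := congrArg (fun y => N' • y) h1
    have e2 := congrArg (fun y => N • y) h2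
    simp only [smul_add, smul_smul] at e1 e2
    rw [comb_sub, comb_smul, comb_smul, sub_smul]
    have e3 : (N' * N) • x = (N * N') • x := by rw [mul_comm]
    have e4 : (N' * M) • D.χ + N' • D.comb f = (N * M') • D.χ + N • D.comb g := by
      rw [← e1, ← e2, e3]
    rw [sub_add_sub_comm, e4, sub_self]
  have h4 := D.indep ((hf.smul N').sub (hg.smul N)) h3
  intro hfi hgi
  have h5 : (N' • f - N • g) i = 0 := by rw [h4, Finsupp.zero_apply]
  rw [Finsupp.sub_apply, Finsupp.smul_apply, Finsupp.smul_apply, hgi, smul_zero, sub_zero,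
    smul_eq_mul] at h5
  rcases mul_eq_zero.1 h5 with h6 | h6
  · exact hN' h6
  · exact hfi h6

variable {D} in
theorem Rep.conj {x : C} {f : ι →₀ ℤ} (hf : D.Rep x f) : D.Rep (D.a D.c x) (-f) := by
  obtain ⟨hf, N, M, hN, h1⟩ := hf
  refine ⟨hf.neg, N, M, hN, ?_⟩
  rw [← map_zsmul, h1, map_add, map_zsmul, D.act_χ, act_comb, D.tw_c hf]

/-- **Hitting sets.** -/
theorem exists_hit (T : Finset C) (hT : ∀ x ∈ T, D.a D.c x ∈ T) :
    ∃ (S : Finset ι) (T' : Finset C), T' ⊆ T ∧ (∀ x ∈ T', ∃ f, D.Rep x f ∧ f ≠ 0) ∧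
      2 * S.card ≤ T'.card ∧ (∀ i ∈ S, D.θ i ≠ 0) ∧
      ∀ x ∈ T, ∀ f, D.Rep x f → f ≠ 0 → ∃ i ∈ S, f i ≠ 0 := by
  classical
  let T' := T.filter fun x => ∃ f, D.Rep x f ∧ f ≠ 0
  have hmem : ∀ x, x ∈ T' ↔ x ∈ T ∧ ∃ f, D.Rep x f ∧ f ≠ 0 := fun x => Finset.mem_filter
  obtain ⟨R, hR, hRc, hRT⟩ := exists_half (fun x => D.a D.c x) _ T' rfl
    (fun x hx => by
      obtain ⟨h1, f, hf, hf0⟩ := (hmem x).1 hx
      exact (hmem _).2 ⟨hT x h1, -f, hf.conj, neg_ne_zero.2 hf0⟩)
    (fun x _ => D.invol x)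
    (fun x hx h => by
      obtain ⟨h1, f, hf, hf0⟩ := (hmem x).1 hx
      have h2 := hf.conj
      rw [h] at h2
      obtain ⟨hf, N, M, hN, h3⟩ := hf
      obtain ⟨i, hi⟩ := Finsupp.support_nonempty_iff.2 hf0
      -- two relations for `x`
      have h4 := congrArg (D.a D.c) h3
      rw [map_zsmul, h, h3, map_add, map_zsmul, D.act_χ, act_comb, D.tw_c hf] at h4
      have h5 : (0 : ℤ) • D.χ + D.comb ((2 : ℤ) • f) = 0 := by
        rw [zero_smul, zero_add, comb_smul, two_smul]
        have h6 := add_left_cancel h4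
        nth_rewrite 1 [h6]
        rw [comb_neg, neg_add_cancel]
      have h6 := D.indep (hf.smul 2) h5
      have h7 : ((2 : ℤ) • f) i = 0 := by rw [h6, Finsupp.zero_apply]
      rw [Finsupp.smul_apply, smul_eq_mul] at h7
      exact Finsupp.mem_support_iff.1 hi (by omega))
  have hpick : ∀ x : R, ∃ i, ∃ f, D.Rep x.1 f ∧ f i ≠ 0 := by
    rintro ⟨x, hx⟩
    obtain ⟨-, f, hf, hf0⟩ := (hmem x).1 (hR hx)
    obtain ⟨i, hi⟩ := Finsupp.support_nonempty_iff.2 hf0
    exact ⟨i, f, hf, Finsupp.mem_support_iff.1 hi⟩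
  choose pick F hF hFi using hpick
  refine ⟨R.attach.image pick, T', Finset.filter_subset _ _, fun x hx => ((hmem x).1 hx).2, ?_,
    ?_, ?_⟩
  · have h1 := Finset.card_image_le (s := R.attach) (f := pick)
    rw [Finset.card_attach] at h1
    omega
  · intro i hi
    obtain ⟨x, -, rfl⟩ := Finset.mem_image.1 hi
    exact (hF x).1 _ (hFi x)
  · intro x hx f hf hf0
    rcases hRT x ((hmem x).2 ⟨hx, f, hf, hf0⟩) with h | h
    · refine ⟨pick ⟨x, h⟩, Finset.mem_image.2 ⟨⟨x, h⟩, Finset.mem_attach _ _, rfl⟩, ?_⟩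
      exact Rep.supp D (hF ⟨x, h⟩) hf _ (hFi ⟨x, h⟩)
    · refine ⟨pick ⟨_, h⟩, Finset.mem_image.2 ⟨⟨_, h⟩, Finset.mem_attach _ _, rfl⟩, ?_⟩
      have h1 := Rep.supp D (hF ⟨_, h⟩) hf.conj _ (hFi ⟨_, h⟩)
      intro h2
      apply h1
      rw [Finsupp.neg_apply, h2, neg_zero]

end Dat

end Pool.Agent.L0h12.EC
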