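import Pool.Agent.N179.DB.Grp
import Pool.Agent.L0h12.EC.Supp
import Pool.Agent.L0h12.EC.Chr

set_option autoImplicit false
set_option linter.unusedSectionVars false

/-!
# The action of the automorphisms on the characters
-/

namespace Pool.Agent.L0h12.EC

open Module Pool.Agent.Y133.Per Pool.Agent.N179.DB

noncomputable section

variable (K : Type) [Field K] [Algebra K ℂ] (F : Subfield ℂ)

/-- the automorphisms -/
abbrev GalK : Type := {τ : ℂ ≃+* ℂ // FixK K τ}

/-- the group of characters -/
abbrev CC : Type := XG (PG K F)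

variable {K F}

/-- the action on the characters -/
def galM (τ : GalK K) : (PG K F →* ℂˣ) →* (PG K F →* ℂˣ) where
  toFun l := (Units.map (τ.1 : ℂ →* ℂ)).comp (l.comp (shift τ.2.symm))
  map_one' := by
    ext g
    simp
  map_mul' l m := by
    ext g
    simp

theorem galM_apply (τ : GalK K) (l : PG K F →* ℂˣ) (g : PG K F) :
    (galM τ l g : ℂ) = τ.1 (l (shift τ.2.symm g)) := rfl

theorem galM_shift (τ : GalK K) (l : PG K F →* ℂˣ) (g : PG K F) :
    (galM τ l (shift τ.2 g) : ℂ) = τ.1 (l g) := by
  rw [galM_apply]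
  have h1 := shift_symm (F := F) τ.2.symm g
  have h2 : shift (F := F) τ.2.symm (shift τ.2 g) = g := h1
  rw [h2]

/-- the action on the characters -/
def galC (τ : GalK K) : CC K F →+ CC K F where
  toFun x := toX (galM τ (ofX x))
  map_zero' := congrArg toX (map_one (galM τ))
  map_add' x y := congrArg toX (map_mul (galM τ) (ofX x) (ofX y))

theorem galC_of (τ : GalK K) (l : PG K F →* ℂˣ) : galC τ (toX l) = toX (galM τ l) := rfl

theorem galM_div (τ : GalK K) (l m : PG K F →* ℂˣ) : galM τ (l / m) = galM τ l / galM τ m := by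
  refine MonoidHom.ext fun g => Units.ext ?_
  rw [galM_apply, MonoidHom.div_apply, MonoidHom.div_apply, Units.val_div_eq_div_val,
    Units.val_div_eq_div_val, map_div₀, galM_apply, galM_apply]

theorem galM_chi (τ : GalK K) : galM τ (chi K F) = chi K F := by
  refine MonoidHom.ext fun g => Units.ext ?_
  rw [galM_apply, ← chi_shift τ.2, shift_symm]

theorem galC_chi (τ : GalK K) : galC τ (toX (chi K F)) = toX (chi K F) := by
  rw [galC_of, galM_chi]

theorem galM_invol {τ : GalK K} (h : ∀ x, τ.1 (τ.1 x) = x) (l : PG K F →* ℂˣ) :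
    galM τ (galM τ l) = l := by
  refine MonoidHom.ext fun g => Units.ext ?_
  rw [galM_apply, galM_apply, h]
  have h1 : ∀ g : PG K F, shift τ.2.symm g = shift τ.2 g := by
    intro g
    have h2 : shift (F := F) τ.2.symm = shift τ.2 := by
      refine FreeGroup.ext_hom _ _ fun p => ?_
      rw [shift, shift, FreeGroup.map.of, FreeGroup.map.of]
      congr 1
      have h3 : τ.1.symm = τ.1 := by
        ext x
        rw [RingEquiv.symm_apply_eq, h]
      congr 1 <;> rw [h3]
    rw [h2]
  rw [h1 (shift τ.2.symm g), shift_symm]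

theorem galC_invol {τ : GalK K} (h : ∀ x, τ.1 (τ.1 x) = x) (l : CC K F) :
    galC τ (galC τ l) = l := by
  have h1 := galM_invol h (ofX l)
  exact congrArg toX h1

section rep

variable {V : Type*} [AddCommGroup V] [Module ℂ V] {ι κ : Type*} [Fintype ι] [Fintype κ]
  (b : Basis ι ℂ V) (e : Basis κ ℂ V)

/-- the operators -/
def rl (g : PG K F) : V →ₗ[ℂ] V := (rho b e K F g : V →ₗ[ℂ] V)

variable {b e}

theorem sl_Wt (τ : GalK K) {l : PG K F →* ℂˣ} {x : V} (hx : x ∈ Wt (rl (K := K) (F := F) b e) l) :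
    sl b τ.1 x ∈ Wt (rl (K := K) (F := F) b e) (galM τ l) := by
  intro g
  have h1 := rho_shift b e τ.2 (shift τ.2.symm g) x
  rw [shift_symm] at h1
  change rho b e K F g (sl b τ.1 x) = _
  rw [h1]
  have h2 : rho b e K F (shift τ.2.symm g) x = (l (shift τ.2.symm g) : ℂ) • x := hx _
  rw [h2, sl_smul]
  rfl

/-- characters of semi-invariant vectors -/
theorem exists_Wt {x : V} (hx : x ≠ 0) (h : ∀ g, ∃ c : ℂ, rho b e K F g x = c • x) :
    ∃ l : PG K F →* ℂˣ, x ∈ Wt (rl (K := K) (F := F) b e) l := by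
  choose c hc using h
  have hc0 : ∀ g, c g ≠ 0 := fun g h0 => by
    have h1 := hc g
    rw [h0, zero_smul] at h1
    exact hx ((rho b e K F g).map_eq_zero_iff.1 h1)
  have hmul : ∀ g h, c (g * h) = c g * c h := by
    intro g h
    have h1 := hc (g * h)
    rw [map_mul, LinearEquiv.mul_apply, hc h, map_smul, hc g, smul_smul] at h1
    have h2 : (c (g * h) - c g * c h) • x = 0 := by
      rw [sub_smul, ← h1, mul_comm (c g), sub_self]
    exact sub_eq_zero.1 ((smul_eq_zero.1 h2).resolve_right hx)
  have hone : c 1 = 1 := by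
    have h1 := hmul 1 1
    rw [mul_one] at h1
    exact (mul_eq_left₀ (hc0 1)).1 h1.symm
  let l : PG K F →* ℂˣ :=
    { toFun := fun g => Units.mk0 (c g) (hc0 g)
      map_one' := Units.ext hone
      map_mul' := fun g h => Units.ext (hmul g h) }
  exact ⟨l, fun g => hc g⟩

end rep

end

end Pool.Agent.L0h12.EC
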