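import Pool.Agent.N179.DB.Stm
import Pool.Agent.N179.DB.Defs

/-!
# Elliptic curves with complex multiplication, and the number of the exceptional curves: definitions
-/

set_option autoImplicit false

namespace Pool.Agent.L0h12.EC

open Pool.Agent.N179.DB.S (QF DRB ell IsHom)
open Pool.Agent.N179.DB.St
open Pool.Agent.Y102 (AbVar)

/-- The elliptic curve has complex multiplication: its de Rham-Betti structure has an endomorphism
which is not a scalar. -/
def HasCM (K : Type) [Field K] [Algebra K ℂ] (A : AbVar 1) : Prop :=
  ∃ P : (ell K A).V →ₗ[K] (ell K A).V, IsHom (M := ell K A) (N := ell K A) P ∧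
    ∀ r : K, P ≠ r • LinearMap.id

/-- The set `E` of exceptional curves is finite. Let `b` be the dimension of the algebra (the sum of
the Betti numbers), `b'` the dimension of the span of the common eigenvectors of the period operators
and `t` the dimension of the space of the de Rham-Betti classes. At most `(b - b') / 2` of the
exceptional curves have no complex multiplication, at most `(b' - t) / 2` have complex
multiplication; so there are at most `(b - t) / 2` of them. -/
structure FewCurves {K : Type} [Field K] [Algebra K ℂ] (X : DRA K QF) {ι : Type}
    (A : ι → AbVar 1) (E : Set ι) : Prop where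
  finite : E.Finite
  noCM : 2 * (E \ {i | HasCM K (A i)}).ncard + (sp X.str).dim' ≤ (sp X.str).dim
  cm : 2 * (E ∩ {i | HasCM K (A i)}).ncard + Set.finrank K X.periods ≤ (sp X.str).dim'
  total : 2 * E.ncard + Set.finrank K X.periods ≤ (sp X.str).dim

end Pool.Agent.L0h12.EC
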