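import Pool.Agent.L0h12.EC.EllC
import Pool.Agent.L0h12.EC.CMDef

set_option autoImplicit false
set_option linter.unusedSectionVars false

/-!
# Families of elliptic curves: the characters
-/

open CategoryTheory AlgebraicGeometry TensorProduct

namespace Pool.Agent.L0h12.EC

open Module Pool.Agent.Y133.Per Pool.Agent.N179.DB
open Pool.Agent.N179.DB.S
open Pool.Agent.Y102 (AbVar)

noncomputable section

variable {K : Type} [Field K] [Algebra K ℂ]

theorem rat_fix {K : Type} [Field K] [Algebra K ℂ] (hK : Rationals K) (τ : ℂ ≃+* ℂ) :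
    FixK K τ := by
  intro r
  obtain ⟨q, rfl⟩ := hK r
  simp

/-- the complex conjugation -/
def cjE : ℂ ≃+* ℂ := Complex.conjAe.toRingEquiv

theorem cjE_apply (x : ℂ) : cjE x = (starRingEnd ℂ) x := rfl

/-- Two elliptic curves with the same field of complex multiplication are isogenous. -/
theorem isog_of (hK : Rationals K) {A B : AbVar 1} {c c' : ℂ} {ψ ψ'} {v v'}
    (h : CMD K A c ψ v) (h' : CMD K B c' ψ' v')
    (hs : ∀ τ : GalK K, τ.1 (c / c') = c / c') : ¬NonIsogenous A B := by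
  -- the quotient is rational
  have h1 : c / c' ∈ KF K := by
    by_contra hn
    obtain ⟨σ, h1, h2⟩ := Pool.Agent.TH119.MX.exists_move hn
    exact h2 (hs ⟨σ, rat_fix hK σ⟩)
  obtain ⟨r, hr⟩ := h1
  obtain ⟨q, rfl⟩ := hK r
  have hq : c = q * c' := by
    have h2 : (q : ℂ) = c / c' := by
      rw [← hr]
      simp
    rw [h2, div_mul_cancel₀ _ h'.ne]
  intro hni
  obtain ⟨a, ha⟩ := h.mul 0
  obtain ⟨b, hb⟩ := h'.mul 0
  rw [Fin.sum_univ_two] at ha hb
  have hA0 := om_ne A
  have hB0 := om_ne B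
  have ha1 : (a 1 : ℂ) ≠ 0 := by
    intro h0
    rw [h0, zero_mul, add_zero] at ha
    have h2 : c = (a 0 : ℂ) := mul_right_cancel₀ hA0 ha
    have h3 := h.conj
    rw [h2, map_ratCast] at h3
    apply h.ne
    rw [h2]
    linear_combination h3 / 2
  have h2 := hni (om B 0 / om A 0) (fun k => by
    fin_cases k
    · refine ⟨![1, 0], ?_⟩
      simp only [Fin.zero_eta, Fin.sum_univ_two, Matrix.cons_val_zero, Matrix.cons_val_one,
        Rat.cast_one, Rat.cast_zero, one_mul, zero_mul, add_zero]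
      exact div_mul_cancel₀ _ hA0
    · refine ⟨![(q * b 0 - a 0) / a 1, q * b 1 / a 1], ?_⟩
      simp only [Fin.mk_one, Fin.sum_univ_two, Matrix.cons_val_zero, Matrix.cons_val_one]
      push_cast
      field_simp
      have e1 : (a 1 : ℂ) * om A 1 = (c - a 0) * om A 0 := by linear_combination -ha
      have e2 : (q : ℂ) * b 1 * om B 1 = (c - q * b 0) * om B 0 := by
        rw [hq]
        linear_combination (-(q : ℂ)) * hb
      linear_combination om B 0 * e1 - om A 0 * e2)
  rw [div_eq_zero_iff] at h2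
  rcases h2 with h3 | h3
  · exact hB0 h3
  · exact hA0 h3

/-- the data of one curve -/
def One (K : Type) [Field K] [Algebra K ℂ] (A : AbVar 1) (θ : CC K QF) (ε : GalK K → ℤ)
    (c : ℂ) : Prop :=
  (θ = 0 ∧ (∀ τ, ε τ = 1) ∧ ∀ P : (ell K A).V →ₗ[K] (ell K A).V,
    IsHom (M := ell K A) (N := ell K A) P → ∃ r : K, P = r • LinearMap.id) ∨
  ∃ (ψ : Fin 2 → (PG K QF →* ℂˣ)) (v : Basis (Fin 2) ℂ (Cx K (ell K A).V)),
    CMD K A c ψ v ∧ θ = toX (ψ 0 / ψ 1) ∧ (∀ τ : GalK K, τ.1 c = ε τ * c) ∧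
    (∀ τ : GalK K, ε τ = 1 ∨ ε τ = -1) ∧ HasCM K A

theorem One.cm_iff {K : Type} [Field K] [Algebra K ℂ] {A : AbVar 1} {θ : CC K QF}
    {ε : GalK K → ℤ} {c : ℂ} (h : One K A θ ε c) : θ ≠ 0 ↔ HasCM K A := by
  rcases h with ⟨h0, -, h⟩ | ⟨ψ, v, hc, h0, -, -, h⟩
  · refine ⟨fun h1 => absurd h0 h1, ?_⟩
    rintro ⟨P, hP, hns⟩
    obtain ⟨r, hr⟩ := h P hP
    exact absurd hr (hns r)
  · refine ⟨fun _ => h, fun _ h1 => ?_⟩
    have h2 := hc.free 1 (by
      refine toX_inj ?_
      rw [toX_zpow, ← h0, h1, smul_zero, toX_one])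
    exact one_ne_zero h2

theorem exists_one (hK : Rationals K) (A : AbVar 1) : ∃ θ ε c, One K A θ ε c := by
  classical
  by_cases h : ∀ P : (ell K A).V →ₗ[K] (ell K A).V,
    IsHom (M := ell K A) (N := ell K A) P → ∃ r : K, P = r • LinearMap.id
  · exact ⟨0, fun _ => 1, 1, Or.inl ⟨rfl, fun _ => rfl, h⟩⟩
  · push Not at h
    obtain ⟨P, hP, hns⟩ := h
    obtain ⟨c, ψ, v, hc⟩ := exists_cmd hK A P hP hns
    refine ⟨toX (ψ 0 / ψ 1), fun τ => if τ.1 c = c then 1 else -1, c,
      Or.inr ⟨ψ, v, hc, rfl, fun τ => ?_, fun τ => ?_, P, hP, hns⟩⟩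
    · beta_reduce
      rcases hc.gal τ with ⟨h1, -⟩ | ⟨h1, -⟩
      · rw [if_pos h1, Int.cast_one, one_mul, h1]
      · by_cases h2 : τ.1 c = c
        · rw [if_pos h2, Int.cast_one, one_mul, h2]
        · rw [if_neg h2, h1]
          push_cast
          ring
    · by_cases h2 : τ.1 c = c
      · exact Or.inl (if_pos h2)
      · exact Or.inr (if_neg h2)

/-- **The data of a family of elliptic curves.** -/
theorem exists_dat (hK : Rationals K) {ι : Type} (A : ι → AbVar 1)
    (h2 : ∀ i j, i ≠ j → NonIsogenous (A i) (A j)) :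
    ∃ Dt : Dat ι (GalK K) (CC K QF), Dt.χ = toX (chi K QF) ∧ (∀ τ, Dt.a τ = galC τ) ∧
      ∀ i, ∃ ε c, One K (A i) (Dt.θ i) ε c := by
  choose θ ε c h using fun i => exists_one hK (A i)
  let cj : GalK K := ⟨cjE, rat_fix hK cjE⟩
  have hact : ∀ τ i, galC τ (θ i) = ε i τ • θ i := by
    intro τ i
    rcases h i with ⟨h1, -, -⟩ | ⟨ψ, v, hc, h1, h3, h4, -⟩
    · rw [h1, map_zero, smul_zero]
    · rw [h1, galC_of, galM_div]
      rcases hc.gal τ with ⟨h5, h6, h7⟩ | ⟨h5, h6, h7⟩
      · have h8 : ε i τ = 1 := by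
          rcases h4 τ with h | h
          · exact h
          · exfalso
            have h9 := h3 τ
            rw [h, h5] at h9
            apply hc.ne
            push_cast at h9
            linear_combination h9 / 2
        rw [h6, h7, h8, one_smul]
      · have h8 : ε i τ = -1 := by
          rcases h4 τ with h | h
          · exfalso
            have h9 := h3 τ
            rw [h, h5] at h9
            apply hc.ne
            push_cast at h9
            linear_combination -h9 / 2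
          · exact h
        rw [h6, h7, h8, neg_one_smul, toX_div, toX_div, neg_sub]
  have hinvol : ∀ x : CC K QF, galC cj (galC cj x) = x := fun x =>
    galC_invol (fun x => Complex.conj_conj x) x
  have hsign : ∀ i τ, ε i τ = 1 ∨ ε i τ = -1 := by
    intro i τ
    rcases h i with ⟨-, h1, -⟩ | ⟨ψ, v, hc, h1, h3, h4, -⟩
    · exact Or.inl (h1 τ)
    · exact h4 τ
  have hneg : ∀ i, θ i ≠ 0 → ε i cj = -1 := by
    intro i hi
    rcases h i with ⟨h0, -, -⟩ | ⟨ψ, v, hc, h1, h3, h4, -⟩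
    · exact absurd h0 hi
    · rcases h4 cj with h5 | h5
      · exfalso
        have h6 := h3 cj
        have h7 : cj.1 (c i) = -c i := hc.conj
        rw [h5, h7] at h6
        apply hc.ne
        push_cast at h6
        linear_combination -h6 / 2
      · exact h5
  have hfree : ∀ i, θ i ≠ 0 → ∀ n : ℤ, n • θ i = 0 → n = 0 := by
    intro i hi n hn
    rcases h i with ⟨h0, -, -⟩ | ⟨ψ, v, hc, h1, h3, h4, -⟩
    · exact absurd h0 hi
    · apply hc.free n
      rw [h1, ← toX_zpow] at hn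
      exact toX_inj hn
  have hsep : ∀ i j, i ≠ j → θ i ≠ 0 → θ j ≠ 0 → ∃ τ, ε i τ ≠ ε j τ := by
    intro i j hij hi hj
    rcases h i with ⟨h0, -, -⟩ | ⟨ψ, v, hc, h1, h3, h4, -⟩
    · exact absurd h0 hi
    rcases h j with ⟨h0, -, -⟩ | ⟨ψ', v', hc', h1', h3', h4', -⟩
    · exact absurd h0 hj
    by_contra hcon
    push Not at hcon
    refine isog_of hK hc hc' (fun τ => ?_) (h2 i j hij)
    rw [map_div₀, h3, h3', hcon τ]
    rcases h4' τ with h5 | h5 <;> rw [h5]
    · simp
    · push_cast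
      rw [neg_one_mul, neg_one_mul, neg_div_neg_eq]
  let Dt : Dat ι (GalK K) (CC K QF) :=
    { a := galC
      c := cj
      χ := toX (chi K QF)
      θ := θ
      ε := ε
      act_χ := galC_chi
      act_θ := hact
      invol := hinvol
      sign := hsign
      neg := hneg
      free := hfree
      sep := hsep }
  exact ⟨Dt, rfl, fun _ => rfl, fun i => ⟨_, _, h i⟩⟩

end

end Pool.Agent.L0h12.EC
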