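import Pool.Agent.N179.DB.Ell2
import Pool.Agent.L0h12.EC.Act

set_option autoImplicit false
set_option linter.unusedSectionVars false

/-!
# Elliptic curves with complex multiplication: the characters
-/

open CategoryTheory AlgebraicGeometry TensorProduct

namespace Pool.Agent.L0h12.EC

open Module Pool.Agent.Y133.Per Pool.Agent.N179.DB
open Pool.Agent.N179.DB.S
open Pool.Agent.Y102 (AbVar)

noncomputable section

variable {K : Type} [Field K] [Algebra K ℂ]

/-- the eigenspaces of the operators of a de Rham-Betti structure -/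
abbrev WtM {F : Subfield ℂ} (M : DRB K F) (l : PG K F →* ℂˣ) : Submodule ℂ (Cx K M.V) :=
  Wt (rl (K := K) (F := F) M.b M.e) l

/-- The data of an elliptic curve with complex multiplication. -/
structure CMD (K : Type) [Field K] [Algebra K ℂ] (A : AbVar 1) (c : ℂ)
    (ψ : Fin 2 → (PG K QF →* ℂˣ)) (v : Basis (Fin 2) ℂ (Cx K (ell K A).V)) : Prop where
  mul : ∀ j, ∃ r : Fin 2 → ℚ, c * om A j = ∑ k, (r k : ℂ) * om A k
  conj : (starRingEnd ℂ) c = -c
  ne : c ≠ 0
  wt : ∀ i, v i ∈ WtM (ell K A) (ψ i)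
  det : ψ 0 * ψ 1 = chi K QF
  gal : ∀ τ : GalK K, (τ.1 c = c ∧ galM τ (ψ 0) = ψ 0 ∧ galM τ (ψ 1) = ψ 1) ∨
    (τ.1 c = -c ∧ galM τ (ψ 0) = ψ 1 ∧ galM τ (ψ 1) = ψ 0)
  free : ∀ n : ℤ, (ψ 0 / ψ 1) ^ n = 1 → n = 0

theorem om_ne (A : AbVar 1) : om A 0 ≠ 0 := by
  intro h
  have h1 := per_inj A (w := Pi.single 0 1) (by
    rw [Fin.sum_univ_two]
    simp [h])
  have h2 := congrFun h1 0
  simp at h2

/-- real relations -/
theorem real_inj (A : AbVar 1) {a b : ℝ} (h : (a : ℂ) * om A 0 + (b : ℂ) * om A 1 = 0) :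
    a = 0 ∧ b = 0 := by
  have h1 : ∑ k, (![a, b] k : ℝ) • A.lam k = 0 := by
    funext i
    obtain rfl : i = 0 := Subsingleton.elim _ _
    rw [Finset.sum_apply, Pi.zero_apply, ← h]
    change (∑ k : Fin 2, ((![a, b] k : ℝ) • A.lam k) 0) = _
    rw [Fin.sum_univ_two]
    rw [Pi.smul_apply, Pi.smul_apply, Complex.real_smul, Complex.real_smul]
    rfl
  have h2 := Fintype.linearIndependent_iff.1 A.lam.linearIndependent ![a, b] h1
  exact ⟨h2 0, h2 1⟩

theorem bc_vec (P : (Fin 2 → K) →ₗ[K] (Fin 2 → K)) (q : Fin 2 → Fin 2 → ℚ)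
    (hq : ∀ i j, P (Pi.single j 1) i = q i j) (x : Fin 2 → ℂ) :
    bc P (vec K x) = vec K (fun i => ∑ j, (q i j : ℂ) * x j) := by
  have hq' : ∀ i j, algebraMap K ℂ (P (Pi.single j 1) i) = q i j := fun i j => by
    rw [hq]
    simp
  unfold vec
  rw [map_sum]
  refine (bx (b0 K)).ext_elem fun i => ?_
  have h1 := repr_vec K (fun i => ∑ j, (q i j : ℂ) * x j) i
  unfold vec at h1
  rw [h1, map_sum, Finsupp.finsetSum_apply]
  refine Finset.sum_congr rfl fun j _ => ?_
  rw [bc_tens, bx_repr, Pi.basisFun_repr, hq']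
  ring

theorem sl_vec {A : AbVar 1} (τ : GalK K) (x : Fin 2 → ℂ) :
    sl (ell K A).b τ.1 (show Cx K (ell K A).V from vec K x) =
      (show Cx K (ell K A).V from vec K (fun i => τ.1 (x i))) := by
  have h1 := (ell K A).gal_eq τ.2 (show Cx K (ell K A).V from vec K x)
  have h2 : gal τ.1 τ.2 (vec K x) = sl (bx (b0 K)) τ.1 (vec K x) :=
    S.gal_eq (b0 K) τ.1 τ.2 (vec K x)
  refine h1.symm.trans (Eq.trans (show _ = sl (bx (b0 K)) τ.1 (vec K x) from h2) ?_)
  refine (bx (b0 K)).ext_elem fun i => ?_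
  rw [repr_sl, repr_vec]
  exact (repr_vec K (fun i => τ.1 (x i)) i).symm

theorem smul_vec (a : ℂ) (x : Fin 2 → ℂ) : a • vec K x = vec K (fun i => a * x i) := by
  refine (bx (b0 K)).ext_elem fun i => ?_
  rw [map_smul, Finsupp.smul_apply, repr_vec, repr_vec]
  rfl

/-- homomorphisms respect the line of the first differential -/
theorem hom_line (hK : Rationals K) (A : AbVar 1) (P : (ell K A).V →ₗ[K] (ell K A).V)
    (hP : IsHom (M := ell K A) (N := ell K A) P) :
    ∃ c : ℂ, bc P (show Cx K (ell K A).V from vec K (om A)) =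
      c • (show Cx K (ell K A).V from vec K (om A)) := by
  obtain ⟨q, c, hq, hc⟩ := hom_ell hK A A P hP
  refine ⟨c, ?_⟩
  have h1 := bc_vec P q hq (om A)
  refine Eq.trans (show _ = vec K (fun i => ∑ j, (q i j : ℂ) * om A j) from h1) ?_
  have h2 : (fun i => ∑ j, (q i j : ℂ) * om A j) = fun i => c * om A i := by
    funext i
    rw [hc]
  rw [h2]
  exact (smul_vec c (om A)).symm

/-- the group does not act by scalars -/
theorem not_scalar (hK : Rationals K) (A : AbVar 1) (Δ : Subgroup (PG K QF)) (hΔ : Δ.FiniteIndex)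
    (h : ∀ g ∈ Δ, ∃ a : ℂ, ∀ x, (rep (ell K A)).ap g x = a • x) : False := by
  have hlin : ∀ (f : Cx K (ell K A).V →ₗ[ℂ] Cx K (ell K A).V) (a : ℂ) (x : Cx K (ell K A).V),
      f (a • x) = a • f x := fun f a x => map_smul f a x
  let f : Cx K (ell K A).V →ₗ[ℂ] Cx K (ell K A).V := (e0 K A).constr ℂ ![e0 K A 1, 0]
  have h1 := pot_hom (M := ell K A) (N := ell K A) (mem_QF hK) f Δ hΔ (fun g hg x => by
    obtain ⟨a, ha⟩ := h g hg
    have e1 := ha x
    have e2 := ha (f x)
    rw [e2, e1]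
    exact hlin f a x)
  let x0 : Cx K (ell K A).V := vec K (om A)
  have h2 : Submodule.span ℂ {h : Cx K (ell K A).V →ₗ[ℂ] Cx K (ell K A).V |
      ∃ P : (ell K A).V →ₗ[K] (ell K A).V, IsHom (M := ell K A) (N := ell K A) P ∧ h = bc P} ≤
      (Submodule.span ℂ {x0}).comap (LinearMap.applyₗ x0) := by
    refine Submodule.span_le.2 ?_
    rintro _ ⟨P, hP, rfl⟩
    obtain ⟨c, hc⟩ := hom_line hK A P hP
    rw [SetLike.mem_coe, Submodule.mem_comap, LinearMap.applyₗ_apply_apply]
    exact Submodule.mem_span_singleton.2 ⟨c, hc.symm⟩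
  have h3 := h2 h1
  rw [Submodule.mem_comap, LinearMap.applyₗ_apply_apply] at h3
  obtain ⟨c, hc⟩ := Submodule.mem_span_singleton.1 h3
  have h4 : f x0 = e0 K A 1 := by
    have h5 : x0 = e0 K A 0 := (e0_zero K A).symm
    rw [h5]
    exact (e0 K A).constr_basis ℂ ![e0 K A 1, 0] 0
  have h6 : c • e0 K A 0 = e0 K A 1 := by
    rw [← h4, ← hc, e0_zero K A]
    rfl
  have h7 := congrArg (fun y => (e0 K A).repr y 1) h6
  simp at h7

/-- **The characters of an elliptic curve with complex multiplication.** -/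
theorem exists_cmd (hK : Rationals K) (A : AbVar 1) (P : (ell K A).V →ₗ[K] (ell K A).V)
    (hP : IsHom (M := ell K A) (N := ell K A) P) (hns : ∀ r : K, P ≠ r • LinearMap.id) :
    ∃ c ψ v, CMD K A c ψ v := by
  classical
  obtain ⟨q, c, hq, hc⟩ := hom_ell hK A A P hP
  let P' : (Fin 2 → K) →ₗ[K] (Fin 2 → K) := P
  have hbc := bc_vec P' q hq
  have e0' := hc 0
  have e1' := hc 1
  rw [Fin.sum_univ_two] at e0' e1'
  have hom0 := om_ne A
  -- `c` is not rational
  have hrat : ∀ r : ℚ, c ≠ r := by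
    rintro r rfl
    apply hns (r : K)
    have h1 : ∀ i, q i = Pi.single i r := by
      intro i
      have h2 : q i - Pi.single i r = 0 := per_inj A (by
        simp only [Pi.sub_apply, Rat.cast_sub, sub_mul, Finset.sum_sub_distrib]
        rw [← hc, Finset.sum_eq_single i]
        · rw [Pi.single_eq_same, sub_self]
        · intro j _ hj
          rw [Pi.single_eq_of_ne hj, Rat.cast_zero, zero_mul]
        · intro h
          exact absurd (Finset.mem_univ _) h)
      exact sub_eq_zero.1 h2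
    refine (b0 K).ext fun j => ?_
    rw [Pi.basisFun_apply]
    funext i
    refine (hq i j).trans ?_
    rw [h1]
    change _ = (r : K) • (Pi.single j (1 : K) : Fin 2 → K) i
    rw [smul_eq_mul]
    rcases eq_or_ne i j with rfl | h
    · rw [Pi.single_eq_same, Pi.single_eq_same, mul_one]
    · rw [Pi.single_eq_of_ne h.symm, Pi.single_eq_of_ne h, mul_zero, Rat.cast_zero]
  -- `c` is not real
  have hreal : ∀ r : ℝ, c ≠ r := by
    rintro r rfl
    have h1 : ((r - q 0 0 : ℝ) : ℂ) * om A 0 + ((-(q 0 1 : ℝ) : ℝ) : ℂ) * om A 1 = 0 := by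
      push_cast
      linear_combination e0'
    obtain ⟨h2, -⟩ := real_inj A h1
    apply hrat (q 0 0)
    have h3 : r = (q 0 0 : ℝ) := by linarith
    rw [h3]
    simp
  have hchar : (c - q 0 0) * (c - q 1 1) = q 0 1 * q 1 0 := by
    apply mul_right_cancel₀ hom0
    linear_combination (c - q 1 1) * e0' + (q 0 1 : ℂ) * e1'
  have hq01 : (q 0 1 : ℂ) ≠ 0 := by
    intro h0
    rw [h0, zero_mul, add_zero] at e0'
    exact hrat (q 0 0) (mul_right_cancel₀ hom0 e0')
  set c2 : ℂ := q 0 0 + q 1 1 - c with hc2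
  have hchar2 : (c2 - q 0 0) * (c2 - q 1 1) = q 0 1 * q 1 0 := by
    rw [hc2]
    linear_combination hchar
  set d : ℂ := c - c2 with hd
  have hd2 : d * d = (((q 0 0 + q 1 1) ^ 2 - 4 * (q 0 0 * q 1 1 - q 0 1 * q 1 0) : ℚ) : ℂ) := by
    rw [hd, hc2]
    push_cast
    linear_combination 4 * hchar
  have hdreal : ∀ r : ℝ, d ≠ r := by
    intro r hr
    apply hreal ((r + (q 0 0 + q 1 1)) / 2)
    rw [hd, hc2] at hr
    push_cast
    linear_combination hr / 2
  have hd0 : d ≠ 0 := fun h => hdreal 0 (by rw [h, Complex.ofReal_zero])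
  have hconj : (starRingEnd ℂ) d = -d := by
    have h1 : (starRingEnd ℂ) d * (starRingEnd ℂ) d = d * d := by
      rw [← map_mul, hd2, map_ratCast]
    have h2 : ((starRingEnd ℂ) d - d) * ((starRingEnd ℂ) d + d) = 0 := by
      linear_combination h1
    rcases mul_eq_zero.1 h2 with h3 | h3
    · exfalso
      obtain ⟨r, hr⟩ := Complex.conj_eq_iff_real.1 (sub_eq_zero.1 h3)
      exact hdreal r hr
    · exact eq_neg_of_add_eq_zero_left h3
  -- the eigenvectors
  let w : ℂ → Cx K (Fin 2 → K) := fun z => vec K ![(q 0 1 : ℂ), z - q 0 0]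
  have hw : ∀ z : ℂ, (z - q 0 0) * (z - q 1 1) = q 0 1 * q 1 0 → bc P' (w z) = z • w z := by
    intro z hz
    change bc P' (vec K ![(q 0 1 : ℂ), z - q 0 0]) = z • vec K ![(q 0 1 : ℂ), z - q 0 0]
    rw [hbc, smul_vec]
    congr 1
    funext i
    rw [Fin.sum_univ_two]
    fin_cases i
    · simp
      ring
    · simp
      linear_combination -hz
  have hli : LinearIndependent ℂ ![w c, w c2] := by
    rw [LinearIndependent.pair_iff]
    intro s t hst
    have h0 := congrArg (fun y => (bx (b0 K)).repr y 0) hst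
    have h1 := congrArg (fun y => (bx (b0 K)).repr y 1) hst
    simp only [w, map_add, map_smul, Finsupp.add_apply, Finsupp.smul_apply, repr_vec, map_zero,
      Finsupp.zero_apply, smul_eq_mul, Matrix.cons_val_zero, Matrix.cons_val_one] at h0 h1
    have h2 : s + t = 0 := by
      have h3 : (s + t) * (q 0 1 : ℂ) = 0 := by linear_combination h0
      exact (mul_eq_zero.1 h3).resolve_right hq01
    have h3 : s * d = 0 := by
      rw [hd]
      linear_combination h1 - (c2 - q 0 0) * h2
    have h4 : s = 0 := (mul_eq_zero.1 h3).resolve_right hd0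
    exact ⟨h4, by rw [h4, zero_add] at h2; exact h2⟩
  let v : Basis (Fin 2) ℂ (Cx K (Fin 2 → K)) :=
    basisOfLinearIndependentOfCardEqFinrank hli (by rw [finrank_eq_card_basis (bx (b0 K))])
  have hv0 : v 0 = w c := by
    change (basisOfLinearIndependentOfCardEqFinrank hli _ : Basis _ _ _) 0 = _
    rw [coe_basisOfLinearIndependentOfCardEqFinrank]
    rfl
  have hv1 : v 1 = w c2 := by
    change (basisOfLinearIndependentOfCardEqFinrank hli _ : Basis _ _ _) 1 = _
    rw [coe_basisOfLinearIndependentOfCardEqFinrank]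
    rfl
  have hexp : ∀ y : Cx K (Fin 2 → K), y = v.repr y 0 • w c + v.repr y 1 • w c2 := by
    intro y
    have h1 := v.sum_repr y
    rw [Fin.sum_univ_two, hv0, hv1] at h1
    exact h1.symm
  have hcc : c ≠ c2 := fun h => hd0 (by rw [hd, h, sub_self])
  have hbcy : ∀ y : Cx K (Fin 2 → K), bc P' y =
      (c * v.repr y 0) • w c + (c2 * v.repr y 1) • w c2 := by
    intro y
    conv_lhs => rw [hexp y]
    rw [map_add, map_smul, map_smul, hw c hchar, hw c2 hchar2, smul_smul, smul_smul,
      mul_comm c, mul_comm c2]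
  have hline1 : ∀ y : Cx K (Fin 2 → K), bc P' y = c • y → ∃ a : ℂ, y = a • w c := by
    intro y hy
    refine ⟨v.repr y 0, ?_⟩
    have h1 : (c2 * v.repr y 1 - c * v.repr y 1) • w c2 = 0 := by
      rw [hbcy] at hy
      conv_rhs at hy => rw [hexp y]
      rw [smul_add, smul_smul, smul_smul] at hy
      rw [sub_smul]
      exact sub_eq_zero.2 (add_left_cancel hy)
    rw [← hv1] at h1
    have h2 := (smul_eq_zero.1 h1).resolve_right (v.ne_zero 1)
    have h3 : v.repr y 1 = 0 := by
      have h4 : (c2 - c) * v.repr y 1 = 0 := by linear_combination h2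
      exact (mul_eq_zero.1 h4).resolve_left (sub_ne_zero.2 hcc.symm)
    conv_lhs => rw [hexp y]
    rw [h3, zero_smul, add_zero]
  have hline2 : ∀ y : Cx K (Fin 2 → K), bc P' y = c2 • y → ∃ a : ℂ, y = a • w c2 := by
    intro y hy
    refine ⟨v.repr y 1, ?_⟩
    have h1 : (c * v.repr y 0 - c2 * v.repr y 0) • w c = 0 := by
      rw [hbcy] at hy
      conv_rhs at hy => rw [hexp y]
      rw [smul_add, smul_smul, smul_smul] at hy
      rw [sub_smul]
      exact sub_eq_zero.2 (add_right_cancel hy)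
    rw [← hv0] at h1
    have h2 := (smul_eq_zero.1 h1).resolve_right (v.ne_zero 0)
    have h3 : v.repr y 0 = 0 := by
      have h4 : (c - c2) * v.repr y 0 = 0 := by linear_combination h2
      exact (mul_eq_zero.1 h4).resolve_left (sub_ne_zero.2 hcc)
    conv_lhs => rw [hexp y]
    rw [h3, zero_smul, zero_add]
  let v' : Basis (Fin 2) ℂ (Cx K (ell K A).V) := v
  have hcomm : ∀ (g : PG K QF) (x : Cx K (ell K A).V),
      bc P (rho (ell K A).b (ell K A).e K QF g x) =
        rho (ell K A).b (ell K A).e K QF g (bc P x) := fun g x => rho_lin P hP g x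
  have hw0 : v' 0 ≠ 0 := v'.ne_zero 0
  have hw1 : v' 1 ≠ 0 := v'.ne_zero 1
  have hP0 : bc P (v' 0) = c • v' 0 := by
    have h1 := hw c hchar
    rw [← hv0] at h1
    exact h1
  have hP1 : bc P (v' 1) = c2 • v' 1 := by
    have h1 := hw c2 hchar2
    rw [← hv1] at h1
    exact h1
  obtain ⟨ψ0, hψ0⟩ := exists_Wt (K := K) (F := QF) (b := (ell K A).b) (e := (ell K A).e) hw0
    (fun g => by
      have h1 := hcomm g (v' 0)
      rw [hP0, map_smul] at h1
      obtain ⟨a, ha⟩ := hline1 _ h1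
      exact ⟨a, by rw [← hv0] at ha; exact ha⟩)
  obtain ⟨ψ1, hψ1⟩ := exists_Wt (K := K) (F := QF) (b := (ell K A).b) (e := (ell K A).e) hw1
    (fun g => by
      have h1 := hcomm g (v' 1)
      rw [hP1, map_smul] at h1
      obtain ⟨a, ha⟩ := hline2 _ h1
      exact ⟨a, by rw [← hv1] at ha; exact ha⟩)
  have hwt : ∀ i, v' i ∈ WtM (ell K A) (![ψ0, ψ1] i) := by
    intro i
    fin_cases i
    · exact hψ0
    · exact hψ1
  -- the Galois action
  have hslw : ∀ (τ : GalK K) (z : ℂ), sl (ell K A).b τ.1 (show Cx K (ell K A).V from w z) =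
      (show Cx K (ell K A).V from w (τ.1 z)) := by
    intro τ z
    refine (sl_vec (A := A) τ ![(q 0 1 : ℂ), z - q 0 0]).trans ?_
    change vec K _ = vec K _
    congr 1
    funext i
    fin_cases i
    · simp
    · simp
  have hgal : ∀ τ : GalK K, (τ.1 c = c ∧ τ.1 c2 = c2) ∨ (τ.1 c = c2 ∧ τ.1 c2 = c) := by
    intro τ
    have h1 : (τ.1 c - c) * (τ.1 c - c2) = 0 := by
      have h2 := congrArg τ.1 hchar
      simp only [map_mul, map_sub, map_ratCast] at h2
      rw [hc2]
      linear_combination h2 - hchar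
    have h3 : τ.1 c2 = q 0 0 + q 1 1 - τ.1 c := by
      rw [hc2]
      simp only [map_sub, map_add, map_ratCast]
    rcases mul_eq_zero.1 h1 with h | h
    · left
      have h4 := sub_eq_zero.1 h
      exact ⟨h4, by rw [h3, h4]⟩
    · right
      have h4 := sub_eq_zero.1 h
      refine ⟨h4, ?_⟩
      rw [h3, h4, hc2]
      ring
  refine ⟨d, ![ψ0, ψ1], v', ?_⟩
  refine ⟨?_, hconj, hd0, hwt, ?_, ?_, ?_⟩
  · intro j
    refine ⟨fun k => 2 * q j k - (if k = j then q 0 0 + q 1 1 else 0), ?_⟩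
    have h1 := hc j
    have h2 : d * om A j = 2 * (c * om A j) - (q 0 0 + q 1 1) * om A j := by
      rw [hd, hc2]
      ring
    rw [h2, h1]
    fin_cases j
    · simp [Fin.sum_univ_two]
      ring
    · simp [Fin.sum_univ_two]
      ring
  · refine MonoidHom.ext fun g => Units.ext ?_
    have h1 := det_ell K A g
    let T : Cx K (ell K A).V →ₗ[ℂ] Cx K (ell K A).V := (rep (ell K A)).act g
    have h2 : ∀ i, T (v' i) = ((![ψ0, ψ1] i) g : ℂ) • v' i := by
      intro i
      exact (rep_act (ell K A) g (v' i)).trans (hwt i g)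
    have h3 : LinearMap.det T = (chi K QF g : ℂ) := h1
    rw [← h3, ← LinearMap.det_toMatrix v', Matrix.det_fin_two]
    simp only [LinearMap.toMatrix_apply]
    rw [h2, h2]
    simp
  · intro τ
    have key0 : sl (ell K A).b τ.1 (v' 0) = (show Cx K (ell K A).V from w (τ.1 c)) := by
      have h1 := hslw τ c
      have h2 : v' 0 = (show Cx K (ell K A).V from w c) := hv0
      rw [h2]
      exact h1
    have key1 : sl (ell K A).b τ.1 (v' 1) = (show Cx K (ell K A).V from w (τ.1 c2)) := by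
      have h1 := hslw τ c2
      have h2 : v' 1 = (show Cx K (ell K A).V from w c2) := hv1
      rw [h2]
      exact h1
    have m0 := sl_Wt (K := K) (F := QF) (b := (ell K A).b) (e := (ell K A).e) τ hψ0
    have m1 := sl_Wt (K := K) (F := QF) (b := (ell K A).b) (e := (ell K A).e) τ hψ1
    rw [key0] at m0
    rw [key1] at m1
    rcases hgal τ with ⟨h1, h2⟩ | ⟨h1, h2⟩
    · left
      rw [h1] at m0
      rw [h2] at m1
      refine ⟨by rw [hd, map_sub, h1, h2], ?_, ?_⟩
      · refine Wt_unique hw0 ?_ hψ0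
        have h3 : v' 0 = (show Cx K (ell K A).V from w c) := hv0
        rw [h3]
        exact m0
      · refine Wt_unique hw1 ?_ hψ1
        have h3 : v' 1 = (show Cx K (ell K A).V from w c2) := hv1
        rw [h3]
        exact m1
    · right
      rw [h1] at m0
      rw [h2] at m1
      refine ⟨by rw [hd, map_sub, h1, h2]; ring, ?_, ?_⟩
      · refine Wt_unique hw1 ?_ hψ1
        have h3 : v' 1 = (show Cx K (ell K A).V from w c2) := hv1
        rw [h3]
        exact m0
      · refine Wt_unique hw0 ?_ hψ0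
        have h3 : v' 0 = (show Cx K (ell K A).V from w c) := hv0
        rw [h3]
        exact m1
  · intro n hn
    by_contra hn0
    have hn' : (ψ0 / ψ1) ^ n = 1 := hn
    have hfin : Finite (ψ0 / ψ1).range := by
      have h1 : ((ψ0 / ψ1).range : Set ℂˣ) ⊆ (rootsOfUnity n.natAbs ℂ : Set ℂˣ) := by
        rintro _ ⟨g, rfl⟩
        have h2 := DFunLike.congr_fun hn' g
        rw [MonoidHom.zpow_apply, MonoidHom.one_apply] at h2
        have h3 : ((ψ0 / ψ1) g) ^ n.natAbs = 1 := by
          rcases Int.natAbs_eq n with h | h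
          · rw [h, zpow_natCast] at h2
            exact h2
          · rw [h, zpow_neg, zpow_natCast, inv_eq_one] at h2
            exact h2
        exact h3
      have h4 : NeZero n.natAbs := ⟨Int.natAbs_ne_zero.2 hn0⟩
      have h5 : Finite (rootsOfUnity n.natAbs ℂ) := inferInstance
      exact Finite.Set.subset (rootsOfUnity n.natAbs ℂ : Set ℂˣ) h1
    refine not_scalar hK A (ψ0 / ψ1).ker inferInstance fun g hg => ⟨(ψ0 g : ℂ), fun x => ?_⟩
    have hg' : ψ1 g = ψ0 g := by
      have h1 : (ψ0 / ψ1) g = 1 := hg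
      rw [MonoidHom.div_apply, div_eq_one] at h1
      exact h1.symm
    have h1 : ((rep (ell K A)).act g) = (ψ0 g : ℂ) • LinearMap.id := by
      refine v'.ext fun i => ?_
      have h2 : (rep (ell K A)).act g (v' i) = ((![ψ0, ψ1] i) g : ℂ) • v' i :=
        (rep_act (ell K A) g (v' i)).trans (hwt i g)
      refine h2.trans ?_
      fin_cases i
      · rfl
      · change (ψ1 g : ℂ) • v' 1 = (ψ0 g : ℂ) • v' 1
        rw [hg']
    exact LinearMap.congr_fun h1 x

end

end Pool.Agent.L0h12.EC
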