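import Pool.Agent.N179.DB.Tw
import Pool.Agent.L0h12.EC.Chr

set_option autoImplicit false
set_option linter.unusedSectionVars false

/-!
# The slices of twisted classes
-/

open CategoryTheory AlgebraicGeometry

universe u

namespace Pool.Agent.L0h12.EC

open Module Pool.Agent.H914 Pool.Agent.H914.VarClass Pool.Agent.H914.VarClass.Obj
  Pool.Agent.H914.WeilCohomology Pool.Agent.H281R3.HT Pool.Agent.W552 Pool.Agent.TH125.Gal
open Pool.Agent.N179.GR (ctr2 ctr2_apply ctr_sum exists_exp TwSet)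

noncomputable section

variable {k : Type u} [Field k] {𝒱 : VarClass k} {ops : CycleOps 𝒱}
  {W : WeilCohomology.{u, 0} ops} {Γ : Type} [Group Γ]

variable {P Y : 𝒱.Obj} {ρ : Γ →* (W.H P ≃ₐ[W.K] W.H P)} {τ : Γ →* (W.H Y ≃ₐ[W.K] W.H Y)}
  {υ : Γ →* (W.H (P.prod Y) ≃ₐ[W.K] W.H (P.prod Y))}

/-- **The slices of twisted classes.** -/
theorem ty_step {χ : Γ →* W.Kˣ} (h1 : Intertwines (W.map (fst P Y)) ρ υ)
    (h2 : Intertwines (W.map (snd P Y)) τ υ) (T : Set (W.H P)) {j : ℕ}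
    {z : W.H (P.prod Y)} (hz : ∀ g, υ g z = (χ g : W.K) ^ j • z)
    (hs : ∀ ψ, ctr2 ψ z ∈ Submodule.span W.K T)
    (hT : ∀ m ∈ T, ∃ l : Γ → W.K, (∀ g, ρ g m = l g • m) ∧ (m ∈ TwSet χ P ρ ∨
      ∀ x : W.H Y, (∀ g, l g • τ g x = (χ g : W.K) ^ j • x) → x = 0)) :
    ∀ ψ, ctr2 ψ z ∈ Submodule.span W.K (TwSet χ P ρ) := by
  classical
  obtain ⟨N, m, φ, hm, hφ, hexp⟩ := exists_exp Y T
  have h3 := hexp z hs
  choose c hc hor using fun l => hT (m l) (hm l)
  intro ψ
  rw [h3, map_sum]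
  refine Submodule.sum_mem _ fun l _ => ?_
  rw [ctr2_apply]
  rcases hor l with h | h
  · exact Submodule.smul_mem _ _ (Submodule.subset_span h)
  · have h4 : ctr (φ l) z = 0 := by
      refine h _ fun g => ?_
      have h5 : υ g z = ∑ l', W.map (fst _ Y) (m l') * W.map (snd _ Y)
          (c l' g • τ g (ctr (φ l') z)) := by
        conv_lhs => rw [h3]
        rw [map_sum]
        refine Finset.sum_congr rfl fun l' _ => ?_
        rw [map_mul, h1, h2, hc l' g, map_smul, map_smul, smul_mul_assoc, mul_smul_comm]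
      have h6 := ctr_sum hφ (fun l' => c l' g • τ g (ctr (φ l') z)) l
      rw [← h5, hz g, map_smul] at h6
      exact h6.symm
    rw [h4, map_zero, zero_smul]
    exact Submodule.zero_mem _

end

end Pool.Agent.L0h12.EC
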