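import Pool.Agent.N179.DB.Ten3
import Pool.Agent.L0h12.EC.Chr

set_option autoImplicit false
set_option linter.unusedSectionVars false

/-!
# Typed eigenvectors in an algebra which is generated by a structure with two characters
-/

namespace Pool.Agent.L0h12.EC

open Module Pool.Agent.N179.DB.Tn
open Pool.Agent.N179.GR.S (GRep)

noncomputable section

variable {G : Type} [Group G] {A : Type} [Ring A] [Algebra ℂ A]
  (τ : G →* (A ≃ₐ[ℂ] A)) (χ : G →* ℂˣ) (θ : XG G) (gr : ℕ → Submodule ℂ A)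

/-- The eigenvectors of degree `d` with a character `l` such that `2 l = d χ + n θ`. -/
def Ty : Set A :=
  {m | ∃ (d : ℕ) (l : G →* ℂˣ) (n : ℤ), m ∈ gr d ∧ (∀ g, τ g m = (l g : ℂ) • m) ∧
    (2 : ℤ) • toX l = (d : ℤ) • toX χ + n • θ ∧
    (n • θ = 0 → m ∈ Tw τ χ gr)}

variable {τ χ θ gr}

theorem tw_ty {m : A} (h : m ∈ Tw τ χ gr) : m ∈ Ty τ χ θ gr := by
  obtain ⟨j, h1, h2⟩ := id h
  refine ⟨2 * j, χ ^ j, 0, h1, fun g => ?_, ?_, fun _ => h⟩
  · rw [h2 g, MonoidHom.pow_apply, Units.val_pow_eq_pow_val]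
  · rw [zero_smul, add_zero, toX_pow, smul_smul]
    push_cast
    rfl

/-- **The algebra is spanned by typed eigenvectors.** -/
theorem ty_span {M : GRep ℂ G} {ψ : Fin 2 → (G →* ℂˣ)} (b : Basis (Fin 2) ℂ M.V)
    (hb : ∀ i g, M.act g (b i) = (ψ i g : ℂ) • b i) (hdet : ψ 0 * ψ 1 = χ)
    (hfree : ∀ n : ℤ, (ψ 0 / ψ 1) ^ n = 1 → n = 0)
    (h1 : 1 ∈ gr 0) (hgr : ∀ m n, ∀ x ∈ gr m, ∀ y ∈ gr n, x * y ∈ gr (m + n))
    (hgen : Algebra.adjoin ℂ (Tw τ χ gr ∪ Im1 M τ gr) = ⊤) :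
    Submodule.span ℂ (Ty τ χ (toX (ψ 0 / ψ 1)) gr) = ⊤ := by
  let S : Set A := {m | ∃ u v s : ℕ, m ∈ gr (u + v + 2 * s) ∧
    ∀ g, τ g m = ((ψ 0 g : ℂ) ^ u * (ψ 1 g : ℂ) ^ v * (χ g : ℂ) ^ s) • m}
  have hST : S ⊆ Ty τ χ (toX (ψ 0 / ψ 1)) gr := by
    rintro m ⟨u, v, s, hm, hg⟩
    refine ⟨u + v + 2 * s, ψ 0 ^ u * ψ 1 ^ v * χ ^ s, (u : ℤ) - v, hm, fun g => ?_, ?_, ?_⟩
    · rw [hg g]
      congr 1
    · rw [← hdet, toX_mul, toX_mul, toX_pow, toX_pow, toX_pow, toX_mul, toX_div]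
      push_cast
      module
    · intro h0
      have h2 : (ψ 0 / ψ 1) ^ ((u : ℤ) - v) = 1 := by
        rw [← toX_zpow] at h0
        exact toX_inj h0
      have h3 := hfree _ h2
      obtain rfl : u = v := by omega
      refine ⟨u + s, ?_, fun g => ?_⟩
      · have h4 : 2 * (u + s) = u + u + 2 * s := by ring
        rw [h4]
        exact hm
      · rw [hg g]
        congr 1
        have h5 : (χ g : ℂ) = (ψ 0 g : ℂ) * (ψ 1 g : ℂ) := by
          rw [← hdet]
          rfl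
        rw [h5]
        ring
  rw [eq_top_iff]
  refine le_trans ?_ (Submodule.span_mono hST)
  intro a _
  have ha : a ∈ Algebra.adjoin ℂ (Tw τ χ gr ∪ Im1 M τ gr) := by
    rw [hgen]
    exact Algebra.mem_top
  have hone : (1 : A) ∈ Submodule.span ℂ S := by
    refine Submodule.subset_span ⟨0, 0, 0, h1, fun g => ?_⟩
    rw [map_one, pow_zero, pow_zero, pow_zero, mul_one, mul_one, one_smul]
  induction ha using Algebra.adjoin_induction with
  | mem a ha =>
    rcases ha with ⟨j, h2, h3⟩ | ⟨f, v, h2, h3, rfl⟩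
    · refine Submodule.subset_span ⟨0, 0, j, ?_, fun g => ?_⟩
      · rw [zero_add, zero_add]
        exact h2
      · rw [h3 g, pow_zero, pow_zero, one_mul, one_mul]
    · rw [← b.sum_repr v, map_sum]
      refine Submodule.sum_mem _ fun p _ => ?_
      rw [map_smul]
      refine Submodule.smul_mem _ _ (Submodule.subset_span ?_)
      fin_cases p
      · refine ⟨1, 0, 0, h2 _, fun g => ?_⟩
        change τ g (f (b 0)) = _ • f (b 0)
        rw [← h3, hb, map_smul, pow_zero, pow_zero, pow_one, mul_one, mul_one]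
      · refine ⟨0, 1, 0, h2 _, fun g => ?_⟩
        change τ g (f (b 1)) = _ • f (b 1)
        rw [← h3, hb, map_smul, pow_zero, pow_zero, pow_one, mul_one, one_mul]
  | algebraMap r =>
    rw [Algebra.algebraMap_eq_smul_one]
    exact Submodule.smul_mem _ _ hone
  | add a c _ _ ha hc => exact Submodule.add_mem _ (ha trivial) (hc trivial)
  | mul a c _ _ ha hc =>
    have ha := ha trivial
    have hc := hc trivial
    have h2 := Submodule.mul_mem_mul ha hc
    rw [Submodule.span_mul_span] at h2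
    refine Submodule.span_mono ?_ h2
    rintro _ ⟨x, ⟨u, v, s, hx, hxg⟩, y, ⟨u', v', s', hy, hyg⟩, rfl⟩
    refine ⟨u + u', v + v', s + s', ?_, fun g => ?_⟩
    · have h4 : u + u' + (v + v') + 2 * (s + s') = (u + v + 2 * s) + (u' + v' + 2 * s') := by ring
      rw [h4]
      exact hgr _ _ _ hx _ hy
    · change τ g (x * y) = _
      rw [map_mul, hxg, hyg, smul_mul_smul_comm]
      congr 1
      ring

end

end Pool.Agent.L0h12.EC
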