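import Pool.Agent.N179.DB.Stm2
import Pool.Agent.L0h12.EC.Step
import Pool.Agent.L0h12.EC.Typ
import Pool.Agent.L0h12.EC.Act

set_option autoImplicit false
set_option linter.unusedSectionVars false

/-!
# The characters of products, and the Künneth formula for de Rham-Betti classes
-/

open CategoryTheory AlgebraicGeometry TensorProduct

universe u

namespace Pool.Agent.L0h12.EC

open Module Pool.Agent.Y133.Per Pool.Agent.N179.DB Pool.Agent.N179.DB.S
open Pool.Agent.H914 Pool.Agent.H914.VarClass Pool.Agent.H914.VarClass.Obj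
  Pool.Agent.H914.WeilCohomology Pool.Agent.TH125.Gal
open Pool.Agent.N179.GR (TwSet ctr2 ctr2_apply)
open Pool.Agent.N179.GR.S (SemiInv)

variable {k : Type u} [Field k] {𝒱 : VarClass k} {ops : CycleOps 𝒱}
  {W : WeilCohomology.{u, 0} ops} [Algebra W.K ℂ] {F : Subfield ℂ} (D : DeRham W F)

noncomputable section

/-- `x` is an eigenvector with the character `l` -/
def Ev (X : 𝒱.Obj) (l : PG W.K F →* ℂˣ) (x : Base W.K (W.H X)) : Prop :=
  ∀ g, rr D X g x = (l g : ℂ) • x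

/-- the eigenspaces -/
def WX (X : 𝒱.Obj) (l : PG W.K F →* ℂˣ) : Submodule ℂ (Base W.K (W.H X)) :=
  Wt (fun g => (rr D X g).toLinearMap) l

theorem mem_WX {X : 𝒱.Obj} {l : PG W.K F →* ℂˣ} {x : Base W.K (W.H X)} :
    x ∈ WX D X l ↔ Ev D X l x := Iff.rfl

/-- the characters -/
def CH (X : 𝒱.Obj) : Set (PG W.K F →* ℂˣ) :=
  Chars (V := Base W.K (W.H X)) (fun g => (rr D X g).toLinearMap)

theorem mem_CH {X : 𝒱.Obj} {l : PG W.K F →* ℂˣ} :
    l ∈ CH D X ↔ ∃ x : Base W.K (W.H X), x ≠ 0 ∧ Ev D X l x := Iff.rfl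

theorem Ev.mul {X : 𝒱.Obj} {l m : PG W.K F →* ℂˣ} {x y : Base W.K (W.H X)} (hx : Ev D X l x)
    (hy : Ev D X m y) : Ev D X (l * m) (x * y) := by
  intro g
  rw [rr_mul, hx g, hy g, smul_mul_smul_comm, MonoidHom.mul_apply, Units.val_mul]

theorem rr_map {X Y : 𝒱.Obj} (f : X ⟶ Y) (g : PG W.K F) (a : Base W.K (W.H Y)) :
    rr D X g (baseMap (W.map f) a) = baseMap (W.map f) (rr D Y g a) := intertwines D f g a

theorem Ev.map {X Y : 𝒱.Obj} (f : X ⟶ Y) {l : PG W.K F →* ℂˣ} {x : Base W.K (W.H Y)}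
    (hx : Ev D Y l x) : Ev D X l (baseMap (W.map f) x) := by
  intro g
  rw [rr_map, hx g, map_smul]

variable {D} in
theorem exists_Ev [IsAlgClosed F] {X : 𝒱.Obj} {x : Base W.K (W.H X)} (h : x ∈ semiCl D X)
    (hx : x ≠ 0) : ∃ l, Ev D X l x := by
  have hKF : ∀ r : W.K, algebraMap W.K ℂ r ∈ F := scal D X
  obtain ⟨l, hl⟩ := exists_Wt (K := W.K) (F := F) (b := (coh D X).b) (e := (coh D X).e)
    (x := (show Cx W.K (coh D X).V from x)) hx (fun g => by
      obtain ⟨c, hc⟩ := semi_all hKF (coh D X) h g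
      exact ⟨c, (rep_act (coh D X) g (show Cx W.K (coh D X).V from x)).symm.trans hc⟩)
  exact ⟨l, hl⟩

theorem Ev.semi {X : 𝒱.Obj} {l : PG W.K F →* ℂˣ} {x : Base W.K (W.H X)} (hx : Ev D X l x) :
    x ∈ semiCl D X := by
  refine ⟨⊤, inferInstance, fun g _ => ⟨(l g : ℂ), ?_⟩⟩
  exact (rep_act (coh D X) g (show Cx W.K (coh D X).V from x)).trans (hx g)

/-- the typed classes on `P` -/
def TyX (θ : XG (PG W.K F)) (P : 𝒱.Obj) : Set (Base W.K (W.H P)) :=
  Ty (ta D P) (chi W.K F) θ (gB (W := W) P)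

/-- all semi-invariant classes are combinations of typed classes -/
def OfTheta (θ : XG (PG W.K F)) (P : 𝒱.Obj) : Prop :=
  ∀ x : Base W.K (W.H P), x ∈ semiCl D P → x ∈ Submodule.span ℂ (TyX D θ P)

/-- the Künneth formula with typed classes -/
theorem kun_ty {θ : XG (PG W.K F)} {P Y : 𝒱.Obj} (hP : OfTheta D θ P)
    (hK : Kunneth D P Y) {z : Base W.K (W.H (P.prod Y))} (hz : z ∈ semiCl D (P.prod Y)) :
    z ∈ Submodule.span ℂ {x : Base W.K (W.H (P.prod Y)) | ∃ m ∈ TyX D θ P,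
      ∃ b : Base W.K (W.H Y), b ∈ semiCl D Y ∧
        x = baseMap (W.map (fst P Y)) m * baseMap (W.map (snd P Y)) b} := by
  have h1 := hK z hz
  refine (Submodule.span_le.2 ?_) h1
  rintro _ ⟨a, ha, b, hb, rfl⟩
  let L : Base W.K (W.H P) →ₗ[ℂ] Base W.K (W.H (P.prod Y)) :=
    (LinearMap.mulRight ℂ (baseMap (W.map (snd P Y)) b)).comp
      (baseMap (W.map (fst P Y))).toLinearMap
  have h2 : Submodule.span ℂ (TyX D θ P) ≤ (Submodule.span ℂ {x : Base W.K (W.H (P.prod Y)) |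
      ∃ m ∈ TyX D θ P, ∃ b : Base W.K (W.H Y), b ∈ semiCl D Y ∧
        x = baseMap (W.map (fst P Y)) m * baseMap (W.map (snd P Y)) b}).comap L := by
    refine Submodule.span_le.2 fun m hm => ?_
    exact Submodule.subset_span ⟨m, hm, b, hb, rfl⟩
  exact h2 (hP a ha)

/-- **The characters of a product.** -/
theorem chars_prod [IsAlgClosed F] {θ : XG (PG W.K F)} {P Y : 𝒱.Obj}
    (hP : OfTheta D θ P) (hK : Kunneth D P Y) {μ : PG W.K F →* ℂˣ} (hμ : μ ∈ CH D (P.prod Y)) :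
    ∃ β ∈ CH D Y, ∃ d n : ℤ, (2 : ℤ) • toX μ =
      (2 : ℤ) • toX β + d • toX (chi W.K F) + n • θ := by
  obtain ⟨w, hw0, hw⟩ := hμ
  have hwE : Ev D (P.prod Y) μ w := hw
  have h1 := kun_ty D hP hK (hwE.semi D)
  have key : ∀ y ∈ {x : Base W.K (W.H (P.prod Y)) | ∃ m ∈ TyX D θ P,
      ∃ b : Base W.K (W.H Y), b ∈ semiCl D Y ∧
        x = baseMap (W.map (fst P Y)) m * baseMap (W.map (snd P Y)) b}, y ≠ 0 →
      ∃ l : PG W.K F →* ℂˣ, Ev D (P.prod Y) l y ∧ ∃ β ∈ CH D Y, ∃ d n : ℤ,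
        (2 : ℤ) • toX l =
          (2 : ℤ) • toX β + d • toX (chi W.K F) + n • θ := by
    rintro _ ⟨m, ⟨d, l, n, -, hml, h2, -⟩, b, hb, rfl⟩ hy0
    have hb0 : b ≠ 0 := by
      rintro rfl
      apply hy0
      rw [map_zero, mul_zero]
    obtain ⟨β, hβ⟩ := exists_Ev hb hb0
    have hm : Ev D P l m := hml
    refine ⟨l * β, (hm.map D _).mul D (hβ.map D _), β, ⟨b, hb0, hβ⟩, d, n, ?_⟩
    rw [toX_mul, smul_add, h2]
    abel
  obtain ⟨y, hy, hy0, hyμ⟩ := Wt_span (ap := fun g => (rr D (P.prod Y) g).toLinearMap) hw0 hw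
    (fun y hy => by
      by_cases hy0 : y = 0
      · exact ⟨1, by rw [hy0]; exact Submodule.zero_mem _⟩
      · obtain ⟨l, hl, -⟩ := key y hy hy0
        exact ⟨l, hl⟩) h1
  obtain ⟨l, hl, hβ⟩ := key y hy hy0
  have h2 : l = μ := Wt_unique (ap := fun g => (rr D (P.prod Y) g).toLinearMap) hy0 hl hyμ
  rw [← h2]
  exact hβ

section list

variable {ι : Type} (Dt : Dat ι (GalK W.K) (CC W.K F))

/-- the list consists of typed varieties, with the Künneth formula for semi-invariant classes -/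
def Chain (Z : 𝒱.Obj) : List (ι × 𝒱.Obj) → Prop
  | [] => True
  | (i, P) :: L => Chain Z L ∧ i ∉ L.map Prod.fst ∧ OfTheta D (Dt.θ i) P ∧
      Kunneth D P (prodList L Z)

/-- every character of `Y` is, up to the `θ i` with `i ∈ J`, a character of `Z` -/
def Under (Z Y : 𝒱.Obj) (J : Set ι) : Prop :=
  ∀ μ ∈ CH D Y, ∃ μ' ∈ CH D Z, ∃ (N M : ℤ) (f : ι →₀ ℤ), N ≠ 0 ∧ Dt.Ok f ∧
    (∀ i, f i ≠ 0 → i ∈ J) ∧ N • toX μ = N • toX μ' + M • Dt.χ + Dt.comb f

theorem Under.step [IsAlgClosed F] (hχ : Dt.χ = toX (chi W.K F)) {Z Y P : 𝒱.Obj} {J : Set ι}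
    (hY : Under D Dt Z Y J) {i : ι} (hP : OfTheta D (Dt.θ i) P) (hK : Kunneth D P Y) :
    Under D Dt Z (P.prod Y) (insert i J) := by
  classical
  intro μ hμ
  obtain ⟨β, hβ, d, n, h1⟩ := chars_prod D hP hK hμ
  obtain ⟨μ', hμ', N, M, f, hN, hf, hfL, h2⟩ := hY β hβ
  let g : ι →₀ ℤ := if Dt.θ i = 0 then 0 else Finsupp.single i (N * n)
  have hg : Dt.comb g = (N * n) • Dt.θ i := by
    simp only [g]
    split_ifs with h0
    · rw [Dt.comb_zero, h0, smul_zero]
    · exact Finsupp.sum_single_index (zero_smul ℤ _)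
  have hgi : ∀ j, g j ≠ 0 → j = i ∧ Dt.θ i ≠ 0 := by
    intro j hj
    simp only [g] at hj
    split_ifs at hj with h0
    · exact absurd rfl hj
    · by_cases hji : j = i
      · exact ⟨hji, h0⟩
      · rw [Finsupp.single_eq_of_ne hji] at hj
        exact absurd rfl hj
  have hgok : Dt.Ok g := fun j hj => by
    obtain ⟨h3, h4⟩ := hgi j hj
    rw [h3]
    exact h4
  refine ⟨μ', hμ', 2 * N, N * d + 2 * M, (2 : ℤ) • f + g, mul_ne_zero two_ne_zero hN,
    (hf.smul 2).add hgok, ?_, ?_⟩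
  · intro j hj
    by_cases hg0 : g j = 0
    · right
      refine hfL j fun h0 => hj ?_
      rw [Finsupp.add_apply, Finsupp.smul_apply, h0, smul_zero, hg0, add_zero]
    · exact Or.inl (hgi j hg0).1
  · rw [Dt.comb_add, Dt.comb_smul, hg]
    rw [← hχ] at h1
    have h3 := congrArg (fun x => N • x) h1
    have h4 := congrArg (fun x => (2 : ℤ) • x) h2
    simp only [smul_add, smul_smul] at h3 h4
    rw [mul_comm 2 N, h3, mul_comm N 2, h4, add_smul]
    abel

/-- **The characters of the product.** -/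
theorem chars_list [IsAlgClosed F] (hχ : Dt.χ = toX (chi W.K F)) (Z : 𝒱.Obj) :
    ∀ (L : List (ι × 𝒱.Obj)), Chain D Dt Z L →
      Under D Dt Z (prodList L Z) {i | i ∈ L.map Prod.fst}
  | [], _ => fun μ hμ => ⟨μ, hμ, 1, 0, 0, one_ne_zero, fun i hi => absurd rfl hi,
      fun i hi => absurd rfl hi, by rw [Dt.comb_zero, zero_smul, add_zero, add_zero]⟩
  | (i, P) :: L, hL => by
    obtain ⟨hL', hi, hP, hK⟩ := hL
    have h1 := Under.step D Dt hχ (chars_list hχ Z L hL') hP hK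
    intro μ hμ
    obtain ⟨μ', hμ', N, M, f, hN, hf, hfL, h2⟩ := h1 μ hμ
    refine ⟨μ', hμ', N, M, f, hN, hf, fun j hj => ?_, h2⟩
    rcases hfL j hj with h | h
    · exact List.mem_cons.2 (Or.inl h)
    · exact List.mem_cons.2 (Or.inr h)

/-- the hitting set -/
def Hits (Z : 𝒱.Obj) (S : Set ι) : Prop :=
  ∀ μ ∈ CH D Z, ∀ f, Dt.Rep (toX μ) f → f ≠ 0 → ∃ s ∈ S, f s ≠ 0

/-- **Twisted classes on the product.** -/
theorem slices_tw [IsAlgClosed F] (hχ : Dt.χ = toX (chi W.K F)) {Z Y P : 𝒱.Obj}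
    {S J : Set ι} (hS : Hits D Dt Z S) (hY : Under D Dt Z Y J) {i : ι} (hi : i ∉ J)
    (hiS : ∀ j ∈ insert i J, j ∉ S) (hP : OfTheta D (Dt.θ i) P) (hK : Kunneth D P Y) {j : ℕ}
    {c : W.H (P.prod Y)} (hc : IsDRB D (P.prod Y) j c) :
    ∀ ψ, ctr2 (W := baseW W ℂ) ψ (tm 1 c : Base W.K (W.H (P.prod Y))) ∈
      Submodule.span (baseW W ℂ).K (TwSet (W := baseW W ℂ) (ch W F) P (var D P).act) := by
  have h1 : (tens 1 c : Cx W.K (W.H (P.prod Y))) ∈ semiCl D (P.prod Y) :=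
    (mem_semiCl D).2 ⟨⊤, inferInstance, fun g _ => ⟨_, drb_tw D hc g⟩⟩
  have h2 := kun_ty D hP hK (z := (tm 1 c : Base W.K (W.H (P.prod Y)))) h1
  refine ty_step (W := baseW W ℂ) (χ := ch W F) (P := P) (Y := Y) (j := j)
    (z := (tm 1 c : Base W.K (W.H (P.prod Y)))) (intertwines D (fst P Y)) (intertwines D (snd P Y))
    (TyX D (Dt.θ i) P) (fun g => drb_tw D hc g) ?_ ?_
  · intro ψ
    have h4 : Submodule.span (baseW W ℂ).K {x : (baseW W ℂ).H (P.prod Y) |
        ∃ m ∈ TyX D (Dt.θ i) P, ∃ b : Base W.K (W.H Y), b ∈ semiCl D Y ∧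
        x = baseMap (W.map (fst P Y)) m * baseMap (W.map (snd P Y)) b} ≤
        (Submodule.span (baseW W ℂ).K (show Set ((baseW W ℂ).H P) from
          TyX D (Dt.θ i) P)).comap (ctr2 ψ) := by
      refine Submodule.span_le.2 ?_
      rintro _ ⟨m, hm, b, hb, rfl⟩
      have h5 := ctr2_apply (W := baseW W ℂ) (A := P) (Z := Y) ψ m b
      have h7 : ctr2 (W := baseW W ℂ) ψ ((baseW W ℂ).map (fst P Y) m *
          (baseW W ℂ).map (snd P Y) b) ∈ Submodule.span (baseW W ℂ).K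
            (show Set ((baseW W ℂ).H P) from TyX D (Dt.θ i) P) := by
        rw [h5]
        exact Submodule.smul_mem _ _ (Submodule.subset_span hm)
      exact h7
    exact h4 h2
  · rintro m ⟨d, l, n, hmd, hml, hl, htw⟩
    refine ⟨fun g => (l g : ℂ), hml, ?_⟩
    by_cases h0 : n • Dt.θ i = 0
    · left
      obtain ⟨j', h5, h6⟩ := htw h0
      exact ⟨j', h5, ⊤, inferInstance, fun g _ => h6 g⟩
    · right
      intro x hx
      by_contra hx0
      let x' : Base W.K (W.H Y) := x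
      have hxE : Ev D Y ((chi W.K F) ^ j / l) x' := by
        intro g
        have h5 : (l g : ℂ) • rr D Y g x' = (chi W.K F g : ℂ) ^ j • x' := hx g
        have h6 : (l g : ℂ) ≠ 0 := Units.ne_zero _
        have h7 : ((((chi W.K F) ^ j / l) g : ℂˣ) : ℂ) = (l g : ℂ)⁻¹ * (chi W.K F g : ℂ) ^ j := by
          rw [MonoidHom.div_apply, MonoidHom.pow_apply, Units.val_div_eq_div_val,
            Units.val_pow_eq_pow_val, div_eq_inv_mul]
        rw [h7, mul_smul, ← h5, smul_smul, inv_mul_cancel₀ h6, one_smul]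
      obtain ⟨μ', hμ', N, M, f, hN, hf, hfL, h2⟩ := hY ((chi W.K F) ^ j / l) ⟨x', hx0, hxE⟩
      have hθ : Dt.θ i ≠ 0 := fun h => h0 (by rw [h, smul_zero])
      have hn : n ≠ 0 := by
        rintro rfl
        exact h0 (zero_smul ℤ _)
      classical
      let f' : ι →₀ ℤ := (-2 : ℤ) • f - Finsupp.single i (N * n)
      have hok : Dt.Ok (Finsupp.single i (N * n)) := by
        intro a ha
        by_cases hai : a = i
        · rw [hai]
          exact hθ
        · rw [Finsupp.single_eq_of_ne hai] at ha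
          exact absurd rfl ha
      have hf' : Dt.Ok f' := (hf.smul (-2)).sub hok
      have hrep : Dt.Rep (toX μ') f' := by
        refine ⟨hf', 2 * N, 2 * N * j - N * d - 2 * M, mul_ne_zero two_ne_zero hN, ?_⟩
        rw [toX_div, toX_pow, ← hχ] at h2
        have hsing : Dt.comb (Finsupp.single i (N * n)) = (N * n) • Dt.θ i :=
          Finsupp.sum_single_index (zero_smul ℤ _)
        simp only [f']
        rw [Dt.comb_sub, Dt.comb_smul, hsing]
        rw [← hχ] at hl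
        have h3 := congrArg (fun x => N • x) hl
        have h4 := congrArg (fun x => (2 : ℤ) • x) h2
        simp only [smul_add, smul_sub, smul_smul] at h3 h4
        have h5 : (2 * N) • toX μ' = (2 * N * (j : ℤ)) • Dt.χ -
            (2 * N) • toX l - (2 * M) • Dt.χ - (2 : ℤ) • Dt.comb f := by
          rw [mul_assoc 2 N (j : ℤ), h4]
          abel
        rw [h5, mul_comm 2 N, h3]
        module
      have hf'i : f' i ≠ 0 := by
        simp only [f']
        have h3 : f i = 0 := by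
          by_contra h
          exact hi (hfL i h)
        rw [Finsupp.sub_apply, Finsupp.smul_apply, h3, smul_zero, Finsupp.single_eq_same, zero_sub]
        exact neg_ne_zero.2 (mul_ne_zero hN hn)
      obtain ⟨s, hs, hfs⟩ := hS μ' hμ' f' hrep (fun h => hf'i (by rw [h, Finsupp.zero_apply]))
      refine hiS s ?_ hs
      by_cases hsi : s = i
      · exact Or.inl hsi
      · right
        refine hfL s fun h => hfs ?_
        simp only [f']
        rw [Finsupp.sub_apply, Finsupp.smul_apply, h, smul_zero, Finsupp.single_eq_of_ne hsi,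
          sub_zero]

/-- **The Künneth formula for de Rham-Betti classes.** -/
theorem kun_drb [IsAlgClosed F] (hχ : Dt.χ = toX (chi W.K F)) {Z Y P : 𝒱.Obj}
    {S J : Set ι} (hS : Hits D Dt Z S) (hY : Under D Dt Z Y J) {i : ι} (hi : i ∉ J)
    (hiS : ∀ j ∈ insert i J, j ∉ S) (hP : OfTheta D (Dt.θ i) P) (hK : Kunneth D P Y) :
    ∀ z ∈ periodClasses D (P.prod Y), z ∈ Submodule.span W.K
      {x | ∃ a ∈ periodClasses D P, ∃ b ∈ periodClasses D Y,
        x = W.map (fst P Y) a * W.map (snd P Y) b} := by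
  rintro c ⟨j, hc⟩
  have hs := slices_tw D Dt hχ hS hY hi hiS hP hK hc
  have hgr : (tm 1 c : Base W.K (W.H (P.prod Y))) ∈ gr' W (P.prod Y) (2 * j) := by
    rw [gr'_eq]
    exact Submodule.subset_span ⟨c, hc.1, rfl⟩
  have h3 := Pool.Agent.N179.GR.tw_step (W := baseW W ℂ) (χ := ch W F) (P := P) (Y := Y) (j := j)
    (z := (tm 1 c : Base W.K (W.H (P.prod Y)))) (intertwines D (fst P Y)) (intertwines D (snd P Y))
    hgr (Δ := ⊤) inferInstance (fun g _ => drb_tw D hc g) hs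
  refine mem_of_base _ ?_
  have h5 : Submodule.span (baseW W ℂ).K {x : (baseW W ℂ).H (P.prod Y) |
      ∃ a ∈ TwSet (W := baseW W ℂ) (ch W F) P (var D P).act,
      ∃ b ∈ TwSet (W := baseW W ℂ) (ch W F) Y (var D Y).act,
      x = (baseW W ℂ).map (fst P Y) a * (baseW W ℂ).map (snd P Y) b} ≤
    Submodule.span ℂ {x : Base W.K (W.H (P.prod Y)) | ∃ s ∈ Submodule.span W.K
      {x | ∃ a ∈ periodClasses D P, ∃ b ∈ periodClasses D Y,
        x = W.map (fst P Y) a * W.map (snd P Y) b}, x = tm 1 s} := by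
    refine Submodule.span_le.2 ?_
    rintro _ ⟨a, ha, b, hb, rfl⟩
    exact base_mul (W.map (fst P Y)) (W.map (snd P Y)) _ _ (tw_drb D ha) (tw_drb D hb)
  exact h5 h3

end list

end

end Pool.Agent.L0h12.EC
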