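import Pool.Agent.N179.DB.Stm2
import Pool.Agent.L0h12.EC.DatE
import Pool.Agent.L0h12.EC.Tower

set_option autoImplicit false
set_option linter.unusedSectionVars false

/-!
# Elliptic curves form an independent family; varieties of power type
-/

open CategoryTheory AlgebraicGeometry TensorProduct

universe u

namespace Pool.Agent.L0h12.EC

open Module Pool.Agent.Y133.Per Pool.Agent.N179.DB Pool.Agent.N179.DB.S
open Pool.Agent.H914 Pool.Agent.H914.VarClass Pool.Agent.H914.VarClass.Obj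
  Pool.Agent.H914.WeilCohomology Pool.Agent.TH125.Gal
open Pool.Agent.N179.GR (SemiS Stab algR)
open Pool.Agent.N179.GR.S (GRep Op SemiInv semiSpan endo conj comp Semisimple Independent Family)
open Pool.Agent.N179.DB.Rk (NoSemi)
open Pool.Agent.Y102 (AbVar)

noncomputable section

section rep

variable {Γ : Type} [Group Γ]

/-- the space of operators is spanned by eigenvectors -/
theorem eig_endo (M : GRep ℂ Γ) (v : Basis (Fin 2) ℂ M.V) (ψ : Fin 2 → (Γ →* ℂˣ))
    (hv : ∀ i g, M.act g (v i) = (ψ i g : ℂ) • v i) :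
    eigS (V := Op M) (fun g => (conj M g : Op M →ₗ[ℂ] Op M)) = ⊤ := by
  classical
  have h1 : ∀ p : Fin 2 × Fin 2, (v.linearMap v p : M.V →ₗ[ℂ] M.V) ∈
      (eigS (V := Op M) (fun g => (conj M g : Op M →ₗ[ℂ] Op M)) : Submodule ℂ (M.V →ₗ[ℂ] M.V)) := by
    intro p
    refine Submodule.subset_span ⟨ψ p.1 / ψ p.2, fun g => ?_⟩
    let T : M.V →ₗ[ℂ] M.V := v.linearMap v p
    have h2 : ((M.act g).comp (T.comp (M.act g⁻¹)) : M.V →ₗ[ℂ] M.V) =
        (((ψ p.1 / ψ p.2) g : ℂˣ) : ℂ) • T := by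
      refine v.ext fun k => ?_
      rw [LinearMap.comp_apply, LinearMap.comp_apply, hv, map_smul, LinearMap.smul_apply]
      change M.act g ((ψ k g⁻¹ : ℂ) • (v.linearMap v p) (v k)) =
        (((ψ p.1 / ψ p.2) g : ℂˣ) : ℂ) • (v.linearMap v p) (v k)
      rw [Basis.linearMap_apply_apply]
      split_ifs with hk
      · rw [map_smul, hv, smul_smul, MonoidHom.div_apply, Units.val_div_eq_div_val, map_inv, ← hk,
          Units.val_inv_eq_inv_val, div_eq_inv_mul]
      · rw [smul_zero, map_zero, smul_zero]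
    exact h2
  rw [eq_top_iff]
  have h3 : (⊤ : Submodule ℂ (M.V →ₗ[ℂ] M.V)) ≤
      (eigS (V := Op M) (fun g => (conj M g : Op M →ₗ[ℂ] Op M)) : Submodule ℂ (M.V →ₗ[ℂ] M.V)) := by
    rw [← (v.linearMap v).span_eq]
    refine Submodule.span_le.2 ?_
    rintro _ ⟨p, rfl⟩
    exact h1 p
  exact h3

theorem ss_endo (M : GRep ℂ Γ) (h : eigS (V := Op M) (fun g => (conj M g : Op M →ₗ[ℂ] Op M)) = ⊤) :
    Semisimple (endo M) := by
  intro A _
  have hfd : FiniteDimensional ℂ (Op M) := Op.fd M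
  obtain ⟨B, hB, hAB⟩ := compl_of_eig h A
  exact ⟨B, hB, hAB⟩

theorem has_eig (M : GRep ℂ Γ) (h : eigS (V := Op M) (fun g => (conj M g : Op M →ₗ[ℂ] Op M)) = ⊤)
    (x : (endo M).V) : (semiSpan (endo M)).Has x := by
  let x' : Op M := x
  have h1 : x' ∈ eigS (V := Op M) (fun g => (conj M g : Op M →ₗ[ℂ] Op M)) := by
    rw [h]
    exact Submodule.mem_top
  have h2 : eigS (V := Op M) (fun g => (conj M g : Op M →ₗ[ℂ] Op M)) ≤
      Submodule.span ℂ {x : Op M | SemiInv (M := endo M) x} := by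
    refine Submodule.span_mono ?_
    rintro y ⟨l, hl⟩
    exact ⟨⊤, inferInstance, fun g _ => ⟨_, hl g⟩⟩
  exact h2 h1

theorem indep_right (M M' : GRep ℂ Γ)
    (h : eigS (V := Op M') (fun g => (conj M' g : Op M' →ₗ[ℂ] Op M')) = ⊤) :
    Independent M M' := fun f _ x => has_eig M' h (f.ev x)

theorem indep_left (M M' : GRep ℂ Γ)
    (h : eigS (V := Op M) (fun g => (conj M g : Op M →ₗ[ℂ] Op M)) = ⊤) :
    Independent M M' := by
  intro f hf x
  let f' : Op M →ₗ[ℂ] Op M' := f
  let x' : Op M := x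
  have h1 : x' ∈ eigS (V := Op M) (fun g => (conj M g : Op M →ₗ[ℂ] Op M)) := by
    rw [h]
    exact Submodule.mem_top
  have h2 : eigS (V := Op M) (fun g => (conj M g : Op M →ₗ[ℂ] Op M)) ≤
      (Submodule.span ℂ {x : Op M' | SemiInv (M := endo M') x}).comap f' := by
    refine Submodule.span_le.2 ?_
    rintro y ⟨l, hl⟩
    refine Submodule.subset_span ⟨⊤, inferInstance, fun g _ => ⟨(l g : ℂ), ?_⟩⟩
    have h3 := hf g y
    have h4 : (endo M).ap g y = (l g : ℂ) • y := hl g
    rw [h4] at h3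
    have h5 : f.ev ((l g : ℂ) • y) = (l g : ℂ) • f.ev y := map_smul f' (l g : ℂ) y
    rw [h5] at h3
    exact h3.symm
  exact h2 h1

/-- a curve with complex multiplication is never exceptional -/
theorem no_piece {M U : GRep ℂ Γ} {s : Pool.Agent.N179.GR.S.Sub (endo M)}
    (h : eigS (V := Op M) (fun g => (conj M g : Op M →ₗ[ℂ] Op M)) = ⊤)
    (hs : Pool.Agent.N179.GR.S.Piece M U s) : False := by
  have hfd : FiniteDimensional ℂ (Op M) := Op.fd M
  let A : Submodule ℂ (Op M) := s
  obtain ⟨B, hB, hAB⟩ := compl_of_eig h A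
  have hA : ∀ g, ∀ x ∈ A, conj M g x ∈ A := fun g x hx => hs.stable g x hx
  -- the projections of the eigenvectors vanish
  have h1 : ∀ y : Op M, (∃ l, y ∈ Wt (fun g => (conj M g : Op M →ₗ[ℂ] Op M)) l) → y ∈ B := by
    rintro y ⟨l, hl⟩
    have hy : y ∈ A ⊔ B := by
      rw [hAB.sup_eq_top]
      exact Submodule.mem_top
    obtain ⟨a, ha, b, hb, hab⟩ := Submodule.mem_sup.1 hy
    have h2 : ∀ g, conj M g a = (l g : ℂ) • a := by
      intro g
      have h3 : conj M g y = (l g : ℂ) • y := hl g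
      rw [← hab, map_add, smul_add] at h3
      have h4 : conj M g a - (l g : ℂ) • a = (l g : ℂ) • b - conj M g b := by
        have h5 : conj M g a + conj M g b = (l g : ℂ) • a + (l g : ℂ) • b := h3
        rw [sub_eq_sub_iff_add_eq_add, h5, add_comm]
      have h5 : conj M g a - (l g : ℂ) • a ∈ A :=
        Submodule.sub_mem _ (hA g a ha) (Submodule.smul_mem _ _ ha)
      have h6 : conj M g a - (l g : ℂ) • a ∈ B := by
        rw [h4]
        exact Submodule.sub_mem _ (Submodule.smul_mem _ _ hb) (hB g b hb)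
      exact sub_eq_zero.1 (Submodule.disjoint_def.1 hAB.disjoint _ h5 h6)
    have h3 : a = 0 := hs.noSemiInv a ha ⟨⊤, inferInstance, fun g _ => ⟨_, h2 g⟩⟩
    rw [← hab, h3, zero_add]
    exact hb
  have h2 : eigS (V := Op M) (fun g => (conj M g : Op M →ₗ[ℂ] Op M)) ≤ B :=
    Submodule.span_le.2 fun y hy => h1 y hy
  rw [h, top_le_iff] at h2
  have h3 : A = ⊥ := by
    have h4 := hAB.disjoint
    rw [h2] at h4
    exact disjoint_top.1 h4
  have h4 : s.dim = 0 := by
    have h5 : finrank ℂ A = 0 := by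
      rw [h3]
      exact finrank_bot ℂ (Op M)
    exact h5
  have h5 := hs.three
  omega

end rep

variable {K : Type} [Field K] [Algebra K ℂ]

/-- the operators of a curve with complex multiplication -/
theorem cmd_act {A : AbVar 1} {c : ℂ} {ψ : Fin 2 → (PG K QF →* ℂˣ)}
    {v : Basis (Fin 2) ℂ (Cx K (ell K A).V)} (h : CMD K A c ψ v) (i : Fin 2) (g : PG K QF) :
    (rep (ell K A)).act g (v i) = (ψ i g : ℂ) • v i :=
  (rep_act (ell K A) g (v i)).trans (h.wt i g)

theorem eig_of_cm (hK : Rationals K) {A : AbVar 1} (h : HasCM K A) :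
    eigS (V := Op (rep (ell K A))) (fun g => (conj (rep (ell K A)) g :
        Op (rep (ell K A)) →ₗ[ℂ] Op (rep (ell K A)))) = ⊤ := by
  obtain ⟨P, hP, hns⟩ := h
  obtain ⟨c, ψ, v, hc⟩ := exists_cmd hK A P hP hns
  exact eig_endo (rep (ell K A)) v ψ fun i g => cmd_act hc i g

/-- **Elliptic curves which are pairwise not isogenous form an independent family.** -/
theorem family_all (hK : Rationals K) {ι : Type} (A : ι → AbVar 1)
    (h2 : ∀ i j, i ≠ j → NonIsogenous (A i) (A j)) :
    Family (fun i => rep (ell K (A i))) := by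
  have hor : ∀ i, NoSemi (rep (ell K (A i))) ∨
      eigS (V := Op (rep (ell K (A i)))) (fun g => (conj (rep (ell K (A i))) g :
        Op (rep (ell K (A i))) →ₗ[ℂ] Op (rep (ell K (A i))))) = ⊤ := by
    intro i
    obtain ⟨θ, ε, c, h⟩ := exists_one hK (A i)
    rcases h with ⟨-, -, h⟩ | ⟨ψ, v, hc, -, -⟩
    · exact Or.inl (noSemi_of (mem_QF hK) (ell K (A i)) (b0 K) (ell_line hK (A i)) h)
    · exact Or.inr (eig_endo (rep (ell K (A i))) v ψ fun i g => cmd_act hc i g)
  refine ⟨fun i => ?_, fun i j hij => ?_⟩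
  · rcases hor i with h | h
    · exact h.semisimple (bx (b0 K))
    · exact ss_endo _ h
  · rcases hor i with h | h
    · rcases hor j with h' | h'
      · exact independent_of (mem_QF hK) (ell K (A i)) (ell K (A j)) (b0 K) (b0 K) h h'
          (fun g => by rw [det_ell, det_ell])
          (fun P hP => hom_zero hK (A i) (A j) (h2 j i hij.symm) P hP)
      · exact indep_right _ _ h'
    · exact indep_left _ _ h

variable {k : Type u} [Field k] {𝒱 : VarClass k} {ops : CycleOps 𝒱}
  {W : WeilCohomology.{u, 0} ops} [Algebra W.K ℂ]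

/-- **Varieties of power type.** -/
theorem power_all (hK : Rationals W.K) (D : DeRham W QF) {A : AbVar 1} {θ : CC W.K QF}
    {ε : GalK W.K → ℤ} {c : ℂ} (h : One W.K A θ ε c) {P : 𝒱.Obj}
    (hP : PowerType D (ell W.K A) P) : OfType D (ell W.K A) P ∧ OfTheta D θ P := by
  rcases h with ⟨h0, -, h⟩ | ⟨ψ, v, hc, h0, -, -, -⟩
  · obtain ⟨h1, h2⟩ := power_type D (b0 W.K)
      (noSemi_of (mem_QF hK) (ell W.K A) (b0 W.K) (ell_line hK A) h) (det_ell W.K A) hP
    refine ⟨h1, fun x hx => ?_⟩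
    refine (Submodule.span_mono ?_) (h2 x hx)
    rintro _ ⟨c, ⟨j, hc⟩, rfl⟩
    exact tw_ty ⟨j, tm_gB hc.1, ta_drb D hc⟩
  · have hfd := finB (W := W) P
    have hgen := gen_pow D hP
    have hsp : Submodule.span ℂ (TyX D θ P) = ⊤ := by
      rw [h0]
      exact ty_span (M := rep (ell W.K A)) (τ := ta D P) (χ := chi W.K QF) (gr := gB (W := W) P)
        (ψ := ψ) v (fun i g => cmd_act hc i g) hc.det hc.free (one_gB P) (mul_gB P) hgen
    have heig : eigS (V := Base W.K (W.H P)) (fun g => (rr D P g).toLinearMap) = ⊤ := by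
      rw [eq_top_iff, ← hsp]
      refine Submodule.span_mono ?_
      rintro x ⟨d, l, n, -, hl, -⟩
      exact ⟨l, hl⟩
    have hss : SemiS (algR (ta D P)) := by
      intro N _
      obtain ⟨B, hB, hNB⟩ := compl_of_eig heig N
      exact ⟨B, hB, hNB⟩
    refine ⟨⟨?_, ?_⟩, fun x _ => by rw [hsp]; exact Submodule.mem_top⟩
    · have h1 : Algebra.adjoin ℂ (Tn.Tw (ta D P) (chi W.K QF) (gB (W := W) P) ∪
          Tn.Im1 (rep (ell W.K A)) (ta D P) (gB (W := W) P)) ≤
          Algebra.adjoin ℂ (semiCl D P ∪ imgs (fun _ : Unit => ell W.K A) (coh D P) :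
            Set (Base W.K (W.H P))) := by
        refine Algebra.adjoin_mono ?_
        rintro x (⟨j, -, hx⟩ | ⟨f, v, -, hf, rfl⟩)
        · left
          refine (mem_semiCl D).2 ?_
          exact ⟨⊤, inferInstance, fun g _ => ⟨_, hx g⟩⟩
        · right
          refine ⟨(), f, v, fun g x => ?_, rfl⟩
          have h2 := hf g x
          exact Eq.trans (show f ((rep (ell W.K A)).act g x) = _ from h2)
            (rep_act (coh D P) g (show Cx W.K (coh D P).V from f x)).symm
      rw [hgen] at h1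
      exact eq_top_iff.2 h1
    · rw [← coh_var D P]
      exact fun A hA => hss A hA

end

end Pool.Agent.L0h12.EC
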