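import Pool.Agent.L0h12.EC.Fam

set_option autoImplicit false
set_option linter.unusedSectionVars false

/-!
# An arbitrary variety and almost all elliptic curves
-/

open CategoryTheory AlgebraicGeometry TensorProduct

universe u

namespace Pool.Agent.L0h12.EC

open Module Pool.Agent.Y133.Per Pool.Agent.N179.DB Pool.Agent.N179.DB.S
open Pool.Agent.H914 Pool.Agent.H914.VarClass Pool.Agent.H914.VarClass.Obj
  Pool.Agent.H914.WeilCohomology Pool.Agent.TH125.Gal
open Pool.Agent.H281R3.HT (algSpan)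
open Pool.Agent.N179.GR.S (semiSpan)
open Pool.Agent.Y102 (AbVar)

noncomputable section

variable {k : Type u} [Field k] {𝒱 : VarClass k} {ops : CycleOps 𝒱}
  {W : WeilCohomology.{u, 0} ops} [Algebra W.K ℂ] {F : Subfield ℂ} (D : DeRham W F)

/-- the dimension of the span over `K` -/
theorem finrank_tens {K : Type} [Field K] [Algebra K ℂ] {V : Type} [AddCommGroup V] [Module K V]
    [FiniteDimensional K V] (S : Set V) :
    finrank K (Submodule.span K S) ≤
      finrank ℂ (Submodule.span ℂ {x : Cx K V | ∃ c ∈ S, x = tens 1 c}) := by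
  classical
  have hfd : FiniteDimensional ℂ (Cx K V) := Cx.fd V
  obtain ⟨B, hBS, hsp, hli⟩ := exists_linearIndependent K S
  have hfin : Finite B := hli.finite
  have _ : Fintype B := Fintype.ofFinite B
  have h0 : Submodule.span K B = Submodule.span K (Set.range ((↑) : B → V)) := by
    rw [Subtype.range_coe]
  have h1 : finrank K (Submodule.span K S) = Fintype.card B := by
    rw [← hsp, h0]
    exact finrank_span_eq_card hli
  have h2 : LinearIndependent ℂ (fun y : B => (tens 1 (y : V) : Cx K V)) :=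
    Module.Flat.linearIndependent_one_tmul hli
  rw [h1, ← finrank_span_eq_card h2]
  refine Submodule.finrank_mono (Submodule.span_le.2 ?_)
  rintro _ ⟨y, rfl⟩
  exact Submodule.subset_span ⟨(y : V), hBS y.2, rfl⟩

/-- the characters are stable under the automorphisms -/
theorem CH_gal {X : 𝒱.Obj} (τ : GalK W.K) {l : PG W.K F →* ℂˣ} (hl : l ∈ CH D X) :
    galM τ l ∈ CH D X := by
  obtain ⟨w, hw0, hw⟩ := hl
  let w' : Cx W.K (coh D X).V := w
  have h1 : w' ∈ WtM (coh D X) l := hw
  have h2 := sl_Wt (K := W.K) (F := F) (b := (coh D X).b) (e := (coh D X).e) τ h1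
  refine ⟨(show Base W.K (W.H X) from sl (coh D X).b τ.1 w'), ?_, h2⟩
  intro h0
  exact hw0 (sl_inj (coh D X).b τ.1 (Eq.trans (show sl (coh D X).b τ.1 w' = 0 from h0)
    (map_zero (sl (coh D X).b τ.1)).symm))

theorem CH_finite (X : 𝒱.Obj) : (CH D X).Finite := by
  have hfd := finB (W := W) X
  exact finite_chars (V := Base W.K (W.H X))

/-- the operators -/
abbrev rlX (X : 𝒱.Obj) : PG W.K F → Cx W.K (coh D X).V →ₗ[ℂ] Cx W.K (coh D X).V :=
  rl (K := W.K) (F := F) (coh D X).b (coh D X).e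

/-- the span of the eigenvectors -/
theorem eig_le (X : 𝒱.Obj) :
    finrank ℂ (eigS (V := Cx W.K (coh D X).V) (rlX D X)) ≤ (semiSpan (rep (coh D X))).dim := by
  have hfd : FiniteDimensional ℂ (Cx W.K (coh D X).V) := Cx.fd (coh D X).V
  have h1 : eigS (V := Cx W.K (coh D X).V) (rlX D X) ≤
      Submodule.span ℂ {x : Cx W.K (coh D X).V |
        Pool.Agent.N179.GR.S.SemiInv (M := rep (coh D X)) x} := by
    refine Submodule.span_mono ?_
    rintro x ⟨l, hl⟩
    have hx : Ev D X l x := hl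
    exact hx.semi D
  have h2 := Submodule.finrank_mono h1
  exact h2

section list

variable {ι : Type} (Dt : Dat ι (GalK W.K) (CC W.K F))

/-- **The hitting set.** -/
theorem exists_hits (hχ : Dt.χ = toX (chi W.K F)) (ha : ∀ τ, Dt.a τ = galC τ)
    (Z : 𝒱.Obj) : ∃ S : Set ι, S.Finite ∧ Hits D Dt Z S ∧ (∀ i ∈ S, Dt.θ i ≠ 0) ∧
      2 * S.ncard + finrank W.K (Submodule.span W.K (periodClasses D Z)) ≤
        (semiSpan (rep (coh D Z))).dim := by
  classical
  have hfd : FiniteDimensional ℂ (Cx W.K (coh D Z).V) := Cx.fd (coh D Z).V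
  let T : Finset (CC W.K F) := (CH_finite D Z).toFinset.image toX
  have hT : ∀ x, x ∈ T ↔ ofX x ∈ CH D Z := by
    intro x
    simp only [T, Finset.mem_image, Set.Finite.mem_toFinset]
    constructor
    · rintro ⟨l, hl, rfl⟩
      exact hl
    · intro h
      exact ⟨_, h, rfl⟩
  obtain ⟨S, T', hT', hrep, hcard, hθ, hhit⟩ := Dt.exists_hit T (fun x hx => by
    rw [hT] at hx ⊢
    rw [ha]
    exact CH_gal D _ hx)
  refine ⟨S, S.finite_toSet, ?_, hθ, ?_⟩
  · intro μ hμ f hf hf0
    exact hhit (toX μ) ((hT _).2 hμ) f hf hf0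
  · rw [Set.ncard_coe_finset]
    let T'' : Finset (PG W.K F →* ℂˣ) := T'.image ofX
    have hc : T''.card = T'.card := Finset.card_image_of_injective _ (fun _ _ h => ofX_inj h)
    have h1 : finrank ℂ (Submodule.span ℂ {x : Cx W.K (coh D Z).V |
        ∃ c ∈ (periodClasses D Z : Set (coh D Z).V), x = tens 1 c}) + T''.card ≤
        finrank ℂ (eigS (V := Cx W.K (coh D Z).V) (rlX D Z)) := count_chars (ap := rlX D Z)
      (S := {x : Cx W.K (coh D Z).V | ∃ c ∈ (periodClasses D Z : Set (coh D Z).V), x = tens 1 c})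
      (A := {l | ∃ j : ℕ, l = (chi W.K F) ^ j}) (by
        rintro _ ⟨c, ⟨j, hc⟩, rfl⟩
        refine ⟨(chi W.K F) ^ j, ⟨j, rfl⟩, fun g => ?_⟩
        have h2 := ta_drb D hc g
        rw [MonoidHom.pow_apply, Units.val_pow_eq_pow_val]
        exact h2) T'' (by
        intro l hl
        obtain ⟨x, hx, rfl⟩ := Finset.mem_image.1 hl
        exact (hT x).1 (hT' hx)) (by
        intro l hl
        obtain ⟨x, hx, rfl⟩ := Finset.mem_image.1 hl
        rintro ⟨j, hj⟩
        obtain ⟨f, ⟨hf, N, M, hN, h2⟩, hf0⟩ := hrep x hx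
        have h3 : x = (j : ℤ) • Dt.χ := by
          have h4 : x = toX ((chi W.K F) ^ j) := by
            rw [← hj]
            rfl
          rw [h4, toX_pow, hχ]
        apply hf0
        refine Dt.indep hf (M := M - N * j) ?_
        rw [h3, smul_smul] at h2
        rw [sub_smul, h2]
        abel)
    have h2 : finrank W.K (Submodule.span W.K (periodClasses D Z)) ≤
        finrank ℂ (Submodule.span ℂ {x : Cx W.K (coh D Z).V |
        ∃ c ∈ (periodClasses D Z : Set (coh D Z).V), x = tens 1 c}) :=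
      finrank_tens (K := W.K) (V := (coh D Z).V) (periodClasses D Z)
    have h3 := eig_le D Z
    rw [hc] at h1
    omega

end list

/-- the period conjecture for products -/
theorem gpc_prod {P Y : 𝒱.Obj} (hK : ∀ z ∈ periodClasses D (P.prod Y), z ∈ Submodule.span W.K
      {x | ∃ a ∈ periodClasses D P, ∃ b ∈ periodClasses D Y,
        x = W.map (fst P Y) a * W.map (snd P Y) b})
    (hP : (St.coho D P).GPC) (hY : (St.coho D Y).GPC) : (St.coho D (P.prod Y)).GPC := by
  have key : ∀ {X : 𝒱.Obj}, (St.coho D X).GPC → ∀ c ∈ periodClasses D X, c ∈ algSpan W X := by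
    intro X hX c hc
    obtain ⟨j, hc⟩ := hc
    have h1 : c ∈ Submodule.span W.K (algClasses W X j) := hX j hc
    exact Submodule.span_mono (Set.subset_iUnion _ j) h1
  intro j (c : W.H (P.prod Y)) (hc : IsDRB D (P.prod Y) j c)
  have h1 := hK c ⟨j, hc⟩
  have h2 : c ∈ algSpan W (P.prod Y) := by
    refine (Submodule.span_le.2 ?_) h1
    rintro _ ⟨a, ha, b, hb, rfl⟩
    exact algSpan_mul (algSpan_map _ (key hP a ha)) (algSpan_map _ (key hY b hb))
  exact algSpan_gr h2 hc.1

theorem gpc_snd [IsAlgClosed F] {P Y : 𝒱.Obj} (hpt : HasPoint W P)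
    (h : (St.coho D (P.prod Y)).GPC) : (St.coho D Y).GPC := by
  rw [St.gpc_iff] at h ⊢
  rw [← tate_iff] at h ⊢
  exact Pool.Agent.N179.GR.tate_snd (W := baseW W ℂ) (intertwines D (snd P Y))
    (point_of D hpt) h

theorem gpc_fst [IsAlgClosed F] {P Y : 𝒱.Obj} (hpt : HasPoint W Y)
    (h : (St.coho D (P.prod Y)).GPC) : (St.coho D P).GPC := by
  rw [St.gpc_iff] at h ⊢
  rw [← tate_iff] at h ⊢
  exact Pool.Agent.N179.GR.S.tate_fst (W := baseW W ℂ) (intertwines D (fst P Y))
    (point_of D hpt) h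

/-- **The theorem.** -/
theorem final (hK : Rationals W.K) (D : DeRham W QF) {ι : Type} (A : ι → AbVar 1)
    (hA : ∀ i j, i ≠ j → NonIsogenous (A i) (A j)) (Z : 𝒱.Obj) :
    ∃ E : Set ι, E.Finite ∧
      2 * (E \ {i | HasCM W.K (A i)}).ncard + (semiSpan (rep (coh D Z))).dim ≤
        finrank W.K (W.H Z) ∧
      2 * (E ∩ {i | HasCM W.K (A i)}).ncard +
        finrank W.K (Submodule.span W.K (periodClasses D Z)) ≤ (semiSpan (rep (coh D Z))).dim ∧
      St.Splits D (fun i X => X.Power (ell W.K (A i))) E Z := by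
  classical
  have hV := family_all (K := W.K) hK A hA
  obtain ⟨Ex, hEx⟩ := S.split D hV
  obtain ⟨Dt, hχ, ha, hone⟩ := exists_dat (K := W.K) hK A hA
  obtain ⟨S, hSf, hS, hSθ, hSc⟩ := exists_hits D Dt hχ ha Z
  have hcm : ∀ i, Dt.θ i ≠ 0 ↔ HasCM W.K (A i) := fun i => by
    obtain ⟨ε, c, h⟩ := hone i
    exact h.cm_iff
  have hExc : ∀ i ∈ Ex (coh D Z), ¬HasCM W.K (A i) := by
    intro i hi h
    obtain ⟨s, hs, -⟩ := (hEx.exceptional (coh D Z)).pieces
    exact no_piece (eig_of_cm hK h) (hs i hi)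
  have hout := hEx.outside 1 (fun _ => coh D Z) Z (gen_self D Z)
  have hpow : ∀ (i : ι) (P : 𝒱.Obj), PowerType D (ell W.K (A i)) P →
      OfType D (ell W.K (A i)) P ∧ OfTheta D (Dt.θ i) P := by
    intro i P hP
    obtain ⟨ε, c, h⟩ := hone i
    exact power_all hK D h hP
  have hchain : ∀ L : List (ι × 𝒱.Obj), (L.map Prod.fst).Nodup →
      (∀ x ∈ L, x.1 ∉ Ex (coh D Z) ∧ PowerType D (ell W.K (A x.1)) x.2) → Chain D Dt Z L := by
    intro L
    induction L with
    | nil => exact fun _ _ => trivial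
    | cons x L ih =>
      obtain ⟨i, P⟩ := x
      intro h1 h2
      have h1' := h1
      rw [List.map_cons, List.nodup_cons] at h1'
      refine ⟨ih h1'.2 fun x hx => h2 x (List.mem_cons_of_mem _ hx), h1'.1,
        (hpow i P (h2 (i, P) List.mem_cons_self).2).2, ?_⟩
      refine hout.kunneth i P L ⟨h1, fun x hx => ⟨?_, (hpow _ _ (h2 x hx).2).1⟩⟩
      rw [Set.mem_iUnion]
      rintro ⟨-, h⟩
      exact (h2 x hx).1 h
  have hkun : ∀ (i : ι) (P : 𝒱.Obj) (L : List (ι × 𝒱.Obj)),
      (((i, P) :: L).map Prod.fst).Nodup →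
      (∀ x ∈ (i, P) :: L, x.1 ∉ Ex (coh D Z) ∪ S ∧ PowerType D (ell W.K (A x.1)) x.2) →
      ∀ z ∈ periodClasses D (P.prod (prodList L Z)), z ∈ Submodule.span W.K
      {x | ∃ a ∈ periodClasses D P, ∃ b ∈ periodClasses D (prodList L Z),
        x = W.map (fst P (prodList L Z)) a * W.map (snd P (prodList L Z)) b} := by
    intro i P L h1 h2
    obtain ⟨hc1, hc2, hc3, hc4⟩ := hchain _ h1 fun x hx => ⟨fun h => (h2 x hx).1 (Or.inl h),
      (h2 x hx).2⟩
    refine kun_drb D Dt hχ hS (chars_list D Dt hχ Z L hc1) hc2 ?_ hc3 hc4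
    intro j hj hjS
    have hj' : j ∈ ((i, P) :: L).map Prod.fst := by
      rcases hj with h | h
      · exact List.mem_cons.2 (Or.inl h)
      · exact List.mem_cons.2 (Or.inr h)
    obtain ⟨x, hx, rfl⟩ := List.mem_map.1 hj'
    exact (h2 x hx).1 (Or.inr hjS)
  refine ⟨Ex (coh D Z) ∪ S, (hEx.exceptional _).finite.union hSf, ?_, ?_, ?_, ?_⟩
  · have h1 := hEx.variety Z
    have h2 : ((Ex (coh D Z) ∪ S) \ {i | HasCM W.K (A i)}).ncard ≤ (Ex (coh D Z)).ncard := by
      refine Set.ncard_le_ncard ?_ (hEx.exceptional _).finite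
      rintro i ⟨hi | hi, hn⟩
      · exact hi
      · exact absurd ((hcm i).1 (hSθ i hi)) hn
    omega
  · have h2 : ((Ex (coh D Z) ∪ S) ∩ {i | HasCM W.K (A i)}).ncard ≤ S.ncard := by
      refine Set.ncard_le_ncard ?_ hSf
      rintro i ⟨hi | hi, hn⟩
      · exact absurd hn (hExc i hi)
      · exact hi
    omega
  · intro i P L hL
    exact hkun i P L hL.1 fun x hx => hL.2 x hx
  · intro hZ L
    induction L with
    | nil =>
      intro _
      exact ⟨fun h => ⟨h, by simp⟩, fun h => h.1⟩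
    | cons x L ih =>
      obtain ⟨i, P⟩ := x
      intro hL
      have h1 := hL.1
      rw [List.map_cons, List.nodup_cons] at h1
      have hL' : St.Good D (fun i X => X.Power (ell W.K (A i)) ∧ X.Point) (Ex (coh D Z) ∪ S) L :=
        ⟨h1.2, fun x hx => hL.2 x (List.mem_cons_of_mem _ hx)⟩
      have h2 := ih hL'
      have hptP : HasPoint W P := (hL.2 (i, P) List.mem_cons_self).2.2
      have hptY : ∀ L : List (ι × 𝒱.Obj), (∀ x ∈ L, HasPoint W x.2) →
          HasPoint W (prodList L Z) := by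
        intro L
        induction L with
        | nil => exact fun _ => hZ
        | cons y L ih' =>
          intro h
          exact Pool.Agent.N179.GR.S.hasPoint_prod (h y List.mem_cons_self)
            (ih' fun x hx => h x (List.mem_cons_of_mem _ hx))
      have hptL : HasPoint W (prodList L Z) := hptY L fun x hx =>
        (hL.2 x (List.mem_cons_of_mem _ hx)).2.2
      constructor
      · intro h
        have h3 : (St.coho D (St.prd L Z)).GPC := gpc_snd D hptP h
        have h4 : (St.coho D P).GPC := gpc_fst D (Y := prodList L Z) hptL h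
        obtain ⟨h5, h6⟩ := h2.1 h3
        refine ⟨h5, fun x hx => ?_⟩
        rcases List.mem_cons.1 hx with rfl | hx
        · exact h4
        · exact h6 x hx
      · rintro ⟨h3, h4⟩
        have h5 : (St.coho D (St.prd L Z)).GPC := h2.2 ⟨h3, fun x hx =>
          h4 x (List.mem_cons_of_mem _ hx)⟩
        refine gpc_prod D (P := P) (Y := prodList L Z) (hkun i P L hL.1 fun x hx =>
          ⟨(hL.2 x hx).1, (hL.2 x hx).2.1⟩) (h4 (i, P) List.mem_cons_self) h5

end

end Pool.Agent.L0h12.EC
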