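import Pool.Agent.L0h12.EC.Fin

set_option autoImplicit false
set_option linter.unusedSectionVars false

/-!
# An arbitrary variety and almost all elliptic curves, with or without complex multiplication
-/

open CategoryTheory AlgebraicGeometry TensorProduct

universe u

namespace Pool.Agent.L0h12.EC

open Pool.Agent.H914 Pool.Agent.Y133.Per
open Pool.Agent.N179.DB.S (QF DRB ell NonIsogenous Rationals)
open Pool.Agent.N179.DB.St
open Pool.Agent.Y102 (AbVar)

variable {k : Type u} [Field k] {𝒱 : VarClass k} {ops : CycleOps 𝒱}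
  {W : WeilCohomology.{u, 0} ops} [Algebra W.K ℂ]

theorem main (hK : Rationals W.K) (D : DeRham W QF) {ι : Type} (A : ι → AbVar 1)
    (hA : ∀ i j, i ≠ j → NonIsogenous (A i) (A j)) (Z : 𝒱.Obj) :
    ∃ E : Set ι, FewCurves (coho D Z) A E ∧
      Splits D (fun i X => X.Power (ell W.K (A i))) E Z := by
  obtain ⟨E, hE, h1, h2, h3⟩ := final hK D A hA Z
  have h4 : (sp (coho D Z).str).dim' =
      (Pool.Agent.N179.GR.S.semiSpan (Pool.Agent.N179.DB.S.rep (Pool.Agent.N179.DB.S.coh D Z))).dim :=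
    dim'_eq (rat_mem hK) (Pool.Agent.N179.DB.S.coh D Z)
  have h5 : (sp (coho D Z).str).dim = Module.finrank W.K (W.H Z) :=
    Pool.Agent.N179.DB.S.dim_coh D Z
  have h6 : Set.finrank W.K (coho D Z).periods =
      Module.finrank W.K (Submodule.span W.K (Pool.Agent.N179.DB.S.periodClasses D Z)) := rfl
  have h7 : E.ncard ≤ (E \ {i | HasCM W.K (A i)}).ncard + (E ∩ {i | HasCM W.K (A i)}).ncard := by
    have h8 := Set.ncard_union_le (E \ {i | HasCM W.K (A i)}) (E ∩ {i | HasCM W.K (A i)})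
    rwa [Set.sdiff_union_inter] at h8
  refine ⟨E, ⟨hE, ?_, ?_, ?_⟩, h3⟩
  · rw [h4, h5]
    exact h1
  · rw [h4, h6]
    exact h2
  · rw [h5, h6]
    omega

end Pool.Agent.L0h12.EC
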